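import Pool.Agent.V7H84.Perm.Tool

/-!
# Dimension theory of algebras of finite type

The comparison of the Krull dimension and the transcendence degree is the one of
`Pool.Agent.Helper834.EC.Dim1`, for an arbitrary universe.
-/

set_option autoImplicit false

universe u

namespace Pool.Agent.V7H84.Perm

open Order

/-- lifting chains upwards -/
theorem krullDim_le_of_lift_up {α β : Type*} [Preorder α] [Preorder β] (π : α → β)
    (hs : Function.Surjective π)
    (h : ∀ (a : α) (b : β), π a < b → ∃ a', a < a' ∧ π a' = b) :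
    krullDim β ≤ krullDim α := by
  have key : ∀ p : LTSeries β, ∃ q : LTSeries α, q.length = p.length ∧ π q.last = p.last := by
    intro p
    induction p using RelSeries.inductionOn' with
    | singleton x =>
      obtain ⟨a, ha⟩ := hs x
      exact ⟨RelSeries.singleton _ a, rfl, by simpa using ha⟩
    | snoc p x hx hp =>
      obtain ⟨q, hq1, hq2⟩ := hp
      obtain ⟨a', ha1, ha2⟩ := h q.last x (by rw [hq2]; exact hx)
      refine ⟨q.snoc a' ha1, by simp [hq1], by simp [ha2]⟩
  refine iSup_le fun p => ?_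
  obtain ⟨q, hq1, -⟩ := key p
  rw [← hq1]
  exact LTSeries.length_le_krullDim q

theorem ringKrullDim_le_of_integral {R S : Type*} [CommRing R] [CommRing S] [Algebra R S]
    [Algebra.IsIntegral R S] : ringKrullDim S ≤ ringKrullDim R := by
  refine krullDim_le_of_strictMono (PrimeSpectrum.comap (algebraMap R S)) ?_
  intro P Q hPQ
  have hle : P.asIdeal ≤ Q.asIdeal := hPQ.le
  have hne : ¬ Q.asIdeal ≤ P.asIdeal := fun h => hPQ.not_ge h
  obtain ⟨x, hx1, hx2⟩ := Set.not_subset.mp hne
  have := Ideal.comap_lt_comap_of_integral_mem_sdiff (R := R) hle ⟨hx1, hx2⟩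
    (Algebra.IsIntegral.isIntegral x)
  exact this

theorem ringKrullDim_ge_of_integral {R S : Type*} [CommRing R] [CommRing S] [Algebra R S]
    [Algebra.IsIntegral R S] (hinj : Function.Injective (algebraMap R S)) :
    ringKrullDim R ≤ ringKrullDim S := by
  refine krullDim_le_of_lift_up (PrimeSpectrum.comap (algebraMap R S)) ?_ ?_
  · intro P
    obtain ⟨Q, -, hQ, hQ2⟩ := Ideal.exists_ideal_over_prime_of_isIntegral (S := S) P.asIdeal ⊥
      (by
        rw [← RingHom.ker_eq_comap_bot, (RingHom.injective_iff_ker_eq_bot _).mp hinj]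
        exact bot_le)
    exact ⟨⟨Q, hQ⟩, PrimeSpectrum.ext hQ2⟩
  · intro P Q hPQ
    obtain ⟨Q', hQ'1, hQ'2, hQ'3⟩ := Ideal.exists_ideal_over_prime_of_isIntegral (S := S)
      Q.asIdeal P.asIdeal hPQ.le
    refine ⟨⟨Q', hQ'2⟩, lt_of_le_of_ne hQ'1 ?_, PrimeSpectrum.ext hQ'3⟩
    intro h
    rw [h] at hPQ
    exact hPQ.ne (PrimeSpectrum.ext hQ'3)

/-- Domains of finite type: the Krull dimension is the transcendence degree. -/
theorem exists_ringKrullDim_eq_trdeg (K A : Type u) [Field K] [CommRing A] [IsDomain A]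
    [Algebra K A] [Algebra.FiniteType K A] :
    ∃ s : ℕ, ringKrullDim A = s ∧ Algebra.trdeg K A = s := by
  obtain ⟨s, g, hg1, hg2⟩ := exists_integral_inj_algHom_of_fg K A
  let alg : Algebra (MvPolynomial (Fin s) K) A := g.toRingHom.toAlgebra
  have hmap : ∀ x, algebraMap (MvPolynomial (Fin s) K) A x = g x := fun x => rfl
  have tow : IsScalarTower K (MvPolynomial (Fin s) K) A :=
    IsScalarTower.of_algebraMap_eq fun x => by rw [hmap, AlgHom.commutes]
  have fai : FaithfulSMul (MvPolynomial (Fin s) K) A :=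
    (faithfulSMul_iff_algebraMap_injective _ _).2 hg1
  have int : Algebra.IsIntegral (MvPolynomial (Fin s) K) A := ⟨hg2⟩
  have ala : Algebra.IsAlgebraic (MvPolynomial (Fin s) K) A := inferInstance
  refine ⟨s, ?_, ?_⟩
  · have h1 : ringKrullDim A ≤ ringKrullDim (MvPolynomial (Fin s) K) := ringKrullDim_le_of_integral
    have h2 : ringKrullDim (MvPolynomial (Fin s) K) ≤ ringKrullDim A :=
      ringKrullDim_ge_of_integral hg1
    rw [le_antisymm h1 h2, MvPolynomial.ringKrullDim_of_isNoetherianRing,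
      ringKrullDim_eq_zero_of_field]
    simp
  · rw [← _root_.trdeg_add_eq K (MvPolynomial (Fin s) K) (A := A),
      _root_.trdeg_eq_zero (R := MvPolynomial (Fin s) K) (A := A), add_zero,
      MvPolynomial.trdeg_of_isDomain]
    simp

variable {K : Type u} [Field K]

/-- Cutting with the elements of `b` inside of a prime ideal. -/
theorem cut {A : Type u} [CommRing A] [Algebra K A] [Algebra.FiniteType K A]
    (p0 : Ideal A) [p0.IsPrime] (b : Finset A) (P : Ideal A) [P.IsPrime] (h0 : p0 ≤ P)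
    (hb : ∀ y ∈ b, y ∈ P) :
    ∃ p : Ideal A, p.IsPrime ∧ p0 ≤ p ∧ p ≤ P ∧ (∀ y ∈ b, y ∈ p) ∧
      Algebra.trdeg K (A ⧸ p0) ≤ Algebra.trdeg K (A ⧸ p) + b.card := by
  classical
  induction b using Finset.induction_on with
  | empty => exact ⟨p0, inferInstance, le_rfl, h0, by simp, by simp⟩
  | insert y b hy ih =>
    obtain ⟨p', hp', hle0, hle, hbp, htr⟩ := ih fun z hz => hb z (Finset.mem_insert_of_mem hz)
    let A' : Type u := A ⧸ p'
    have hA'd : IsDomain A' := Ideal.Quotient.isDomain p'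
    let φ : A →ₐ[K] A' := Ideal.Quotient.mkₐ K p'
    have hφ : Function.Surjective φ := Ideal.Quotient.mk_surjective
    have hker : RingHom.ker (φ : A →+* A') = p' := Ideal.mk_ker
    have hcm : (P.map (φ : A →+* A')).comap (φ : A →+* A') = P := by
      rw [Ideal.comap_map_of_surjective (φ : A →+* A') hφ, ← RingHom.ker_eq_comap_bot, hker]
      exact sup_eq_left.2 hle
    have hPp : (P.map (φ : A →+* A')).IsPrime :=
      Ideal.map_isPrime_of_surjective (f := (φ : A →+* A')) hφ (by rw [hker]; exact hle)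
    have hyP : Ideal.span {φ y} ≤ P.map (φ : A →+* A') := by
      rw [Ideal.span_singleton_le_iff_mem]
      exact Ideal.mem_map_of_mem _ (hb y (Finset.mem_insert_self _ _))
    obtain ⟨q, hq, hqP⟩ := Ideal.exists_minimalPrimes_le hyP
    have hqp : q.IsPrime := hq.1.1
    have h1 := dom (K := K) (φ y) q hq
    have h2 : Function.Surjective (Ideal.quotientMapₐ (R₁ := K) q φ le_rfl :
        (A ⧸ q.comap φ) →ₐ[K] (A' ⧸ q)) := Ideal.quotientMap_surjective (H := le_rfl) hφ
    have h3 := _root_.trdeg_le_of_surjective _ h2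
    have h5 : ∀ z ∈ p', z ∈ q.comap φ := fun z hz => by
      have h4 : φ z = 0 := Ideal.Quotient.eq_zero_iff_mem.2 hz
      show φ z ∈ q
      rw [h4]; exact zero_mem q
    refine ⟨q.comap φ, Ideal.comap_isPrime φ q, fun z hz => h5 z (hle0 hz), ?_, ?_, ?_⟩
    · calc q.comap φ ≤ (P.map (φ : A →+* A')).comap (φ : A →+* A') := Ideal.comap_mono hqP
        _ = P := hcm
    · intro z hz
      rcases Finset.mem_insert.1 hz with rfl | hz
      · exact hq.1.2 (Ideal.mem_span_singleton_self _)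
      · exact h5 z (hbp z hz)
    · rw [Finset.card_insert_of_notMem hy]
      calc Algebra.trdeg K (A ⧸ p0) ≤ Algebra.trdeg K A' + b.card := htr
        _ ≤ (Algebra.trdeg K (A' ⧸ q) + 1) + b.card := by gcongr
        _ ≤ (Algebra.trdeg K (A ⧸ q.comap φ) + 1) + b.card := by gcongr
        _ = _ := by push_cast; ring

/-- The fibre dimension inequality, in the form needed here. -/
theorem fibre {A : Type u} [CommRing A] [IsDomain A] [Algebra K A] [Algebra.FiniteType K A]
    (B : Subalgebra K A) (hB : B.FG) (P P0 : Ideal A) [P.IsPrime] [P0.IsPrime] (hP : P ≤ P0)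
    {t : A} (htB : t ∈ B) (htP : t ∉ P) (htP0 : t ∈ P0) {ρ : ℕ}
    (hρ : Algebra.trdeg K B ≤ (ρ + 1 : ℕ)) :
    ∃ p : Ideal A, p.IsPrime ∧ p ≤ P ∧ (∀ y ∈ B, y ∈ P → y ∈ p) ∧
      Algebra.trdeg K A ≤ Algebra.trdeg K (A ⧸ p) + ρ := by
  classical
  have hBf : Algebra.FiniteType K B := (Subalgebra.fg_iff_finiteType _).1 hB
  have hBn : IsNoetherianRing B := Algebra.FiniteType.isNoetherianRing K B
  let j : B →+* A := (B.val : B →+* A)
  obtain ⟨n, hn⟩ : ∃ n, n = P.comap j := ⟨_, rfl⟩
  obtain ⟨n0, hn0⟩ : ∃ n0, n0 = P0.comap j := ⟨_, rfl⟩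
  have hnp : n.IsPrime := by rw [hn]; exact Ideal.comap_isPrime j P
  have hn0p : n0.IsPrime := by rw [hn0]; exact Ideal.comap_isPrime j P0
  have hlt : n < n0 := by
    refine lt_of_le_of_ne (by rw [hn, hn0]; exact Ideal.comap_mono hP) fun h => htP ?_
    have h1 : (⟨t, htB⟩ : B) ∈ n0 := by rw [hn0]; exact htP0
    rw [← h, hn] at h1
    exact h1
  obtain ⟨d, hd1, hd2⟩ := exists_ringKrullDim_eq_trdeg K B
  have hdρ : d ≤ ρ + 1 := by
    rw [hd2] at hρ
    exact_mod_cast hρ
  have hh : n.height + 1 ≤ (ρ + 1 : ℕ) := by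
    have h1 := Ideal.height_add_one_le_of_lt_of_isPrime hlt
    have h2 := Ideal.height_le_ringKrullDim_of_ne_top hn0p.ne_top
    rw [hd1] at h2
    have h3 : n0.height ≤ (d : ℕ∞) := by exact_mod_cast h2
    exact (h1.trans h3).trans (by exact_mod_cast hdρ)
  obtain ⟨b, hb, hbc⟩ := Ideal.exists_finset_card_eq_height_of_isNoetherianRing n
  have hbρ : b.card ≤ ρ := by
    rw [← hbc] at hh
    have : ((b.card + 1 : ℕ) : ℕ∞) ≤ ((ρ + 1 : ℕ) : ℕ∞) := by exact_mod_cast hh
    have h2 : b.card + 1 ≤ ρ + 1 := by exact_mod_cast this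
    omega
  obtain ⟨p, hp, -, hpP, hbp, htr⟩ := cut (K := K) ⊥ (b.image j) P bot_le (by
    intro y hy
    obtain ⟨z, hz, rfl⟩ := Finset.mem_image.1 hy
    have h1 : z ∈ n := hb.1.2 (Ideal.subset_span hz)
    rw [hn] at h1
    exact h1)
  have hbot : Algebra.trdeg K A ≤ Algebra.trdeg K (A ⧸ (⊥ : Ideal A)) := by
    have h1 : Function.Injective (Ideal.Quotient.mkₐ K (⊥ : Ideal A)) := by
      rw [injective_iff_map_eq_zero]
      intro a ha
      exact Ideal.mem_bot.1 (Ideal.Quotient.eq_zero_iff_mem.1 ha)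
    exact _root_.trdeg_le_of_injective _ h1
  refine ⟨p, hp, hpP, ?_, (hbot.trans htr).trans ?_⟩
  · intro y hyB hyP
    have h1 : (p.comap j).IsPrime := Ideal.comap_isPrime j p
    have h2 : Ideal.span (b : Set B) ≤ p.comap j := by
      rw [Ideal.span_le]
      intro z hz
      exact hbp _ (Finset.mem_image_of_mem j hz)
    have h3 : p.comap j ≤ n := by rw [hn]; exact Ideal.comap_mono hpP
    have h4 : n ≤ p.comap j := hb.2 ⟨h1, h2⟩ h3
    have h5 : (⟨y, hyB⟩ : B) ∈ n := by rw [hn]; exact hyP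
    exact h4 h5
  · gcongr
    exact Finset.card_image_le.trans hbρ

end Pool.Agent.V7H84.Perm
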