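import Pool.Agent.V7H84.Perm.Power

/-!
# Consequences: ideals over the field, compositions, circuits
-/

set_option autoImplicit false
set_option linter.unusedSectionVars false

universe u

namespace Pool.Agent.V7H84.Perm

open MvPolynomial Finset

variable {n : ℕ} {K : Type u} [Field K]

/-- The approximate version, for arbitrary sets. -/
theorem power_set (h2 : (2 : K) ≠ 0) {j e : ℕ} (hj : 2 ≤ j)
    {R : MvPolynomial (Fin n × Fin n) K} (hR : Low n R)
    {Q : MvPolynomial (Fin n × Fin n) (Polynomial K)}
    {S : Set (MvPolynomial (Fin n × Fin n) (Polynomial K))}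
    (h0 : ∀ f ∈ S, constantCoeff f = 0)
    (h : C (Polynomial.X ^ e) * (map Polynomial.C (per K n + R) + C Polynomial.X * Q) ∈
      Ideal.span S ^ j) :
    ∃ s : Finset (MvPolynomial (Fin n × Fin n) (Polynomial K)), (s : Set _) ⊆ S ∧
      s.card = j * n ∧ AlgebraicIndependent (Polynomial K)
        (fun f : s => (f : MvPolynomial (Fin n × Fin n) (Polynomial K))) := by
  obtain ⟨S', hS', hspan⟩ := (Submodule.fg_span_iff_fg_span_finset_subset S).1
    (IsNoetherian.noetherian (Ideal.span S))
  have h1 : C (Polynomial.X ^ e) * (map Polynomial.C (per K n + R) + C Polynomial.X * Q) ∈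
      Ideal.span (S' : Set _) ^ j := by
    have : Ideal.span S = Ideal.span (S' : Set _) := hspan
    rwa [this] at h
  obtain ⟨s, hs, hc, hi⟩ := power_fin h2 hj hR S'.finite_toSet (fun f hf => h0 f (hS' hf)) h1
  exact ⟨s, hs.trans hS', hc, hi⟩

/-- The exact version over the field. -/
theorem power_exact (h2 : (2 : K) ≠ 0) {j : ℕ} (hj : 2 ≤ j)
    {R : MvPolynomial (Fin n × Fin n) K} (hR : Low n R)
    {S : Set (MvPolynomial (Fin n × Fin n) K)} (h0 : ∀ f ∈ S, constantCoeff f = 0)
    (h : per K n + R ∈ Ideal.span S ^ j) :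
    ∃ s : Finset (MvPolynomial (Fin n × Fin n) K), (s : Set _) ⊆ S ∧
      s.card = j * n ∧ AlgebraicIndependent K
        (fun f : s => (f : MvPolynomial (Fin n × Fin n) K)) := by
  classical
  let φ : MvPolynomial (Fin n × Fin n) K →+* MvPolynomial (Fin n × Fin n) (Polynomial K) :=
    map Polynomial.C
  have hφi : Function.Injective φ := map_injective _ Polynomial.C_injective
  have h1 : C (Polynomial.X ^ 0) * (map Polynomial.C (per K n + R) + C Polynomial.X * 0) ∈
      Ideal.span (φ '' S) ^ j := by
    rw [← Ideal.map_span, ← Ideal.map_pow, pow_zero, C_1, one_mul, mul_zero, add_zero]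
    exact Ideal.mem_map_of_mem φ h
  obtain ⟨s1, hs1, hc1, hi1⟩ := power_set h2 hj hR (S := φ '' S) (by
    rintro _ ⟨f, hf, rfl⟩
    show constantCoeff (map Polynomial.C f) = 0
    rw [constantCoeff_map, h0 f hf, map_zero]) h1
  obtain ⟨s, hs, hss⟩ := subset_set_image_iff.1 hs1
  refine ⟨s, hs, ?_, ?_⟩
  · rw [← hc1, ← hss, card_image_of_injective _ hφi]
  · have h3 : AlgebraicIndependent (Polynomial K) (fun f : s => φ f) :=
      hi1.comp (fun f : s => (⟨φ f, by rw [← hss]; exact mem_image_of_mem φ f.2⟩ : s1))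
        (fun a b hab => Subtype.ext (hφi (congrArg Subtype.val hab)))
    have h4 : AlgebraicIndependent K (fun f : s => φ f) :=
      h3.restrictScalars (Polynomial.C_injective)
    let φa : MvPolynomial (Fin n × Fin n) K →ₐ[K] MvPolynomial (Fin n × Fin n) (Polynomial K) :=
      { φ with commutes' := fun a => map_C _ _ }
    exact AlgebraicIndependent.of_comp φa h4

theorem low_neg {τ : Type*} {R : Type*} [CommRing R] {d : ℕ} {p : MvPolynomial τ R}
    (h : Low d p) : Low d (-p) := fun m hm => h m (by rwa [coeff_neg, neg_ne_zero] at hm)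

theorem low_add {τ : Type*} {R : Type*} [CommRing R] {d : ℕ} {p q : MvPolynomial τ R}
    (h : Low d p) (h' : Low d q) : Low d (p + q) := fun m hm => by
  rw [coeff_add] at hm
  by_cases h0 : p.coeff m = 0
  · rw [h0, zero_add] at hm
    exact h' m hm
  · exact h m h0

/-- Translating algebraically independent elements by constants. -/
theorem indep_shift {ι A : Type*} [CommRing A] [Algebra K A] {x : ι → A} (a : ι → K)
    (h : AlgebraicIndependent K fun i => x i - algebraMap K A (a i)) :
    AlgebraicIndependent K x := by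
  have h1 : (aeval x : MvPolynomial ι K →ₐ[K] A) =
      (aeval fun i => x i - algebraMap K A (a i)).comp (aeval fun i => X i + C (a i)) := by
    ext i
    simp
  have h2 : Function.Injective (aeval (fun i => X i + C (a i)) :
      MvPolynomial ι K →ₐ[K] MvPolynomial ι K) := by
    have h3 : (aeval (fun i => X i - C (a i)) : MvPolynomial ι K →ₐ[K] MvPolynomial ι K).comp
        (aeval fun i => X i + C (a i)) = AlgHom.id K _ := by
      ext i
      simp
    exact Function.LeftInverse.injective (g := (aeval (fun i => X i - C (a i)) :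
      MvPolynomial ι K →ₐ[K] MvPolynomial ι K)) fun z => by
        have := congrArg (fun f : MvPolynomial ι K →ₐ[K] MvPolynomial ι K => f z) h3
        exact this
  unfold AlgebraicIndependent at h ⊢
  rw [h1, AlgHom.coe_comp]
  exact Function.Injective.comp h h2

/-- The permanent (up to terms of lower degree) as a polynomial in polynomials of degree at
most `d`. -/
theorem composition (h2 : (2 : K) ≠ 0) {d : ℕ} (hd : 1 ≤ d) (hdn : d < n)
    {R : MvPolynomial (Fin n × Fin n) K} (hR : Low n R)
    {S : Set (MvPolynomial (Fin n × Fin n) K)} (hS : ∀ f ∈ S, f.totalDegree ≤ d)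
    (h : per K n + R ∈ Algebra.adjoin K S) :
    ∃ s : Finset (MvPolynomial (Fin n × Fin n) K), (s : Set _) ⊆ S ∧
      s.card = (n + d - 1) / d * n ∧ AlgebraicIndependent K
        (fun f : s => (f : MvPolynomial (Fin n × Fin n) K)) := by
  classical
  obtain ⟨j, hj⟩ : ∃ j, j = (n + d - 1) / d := ⟨_, rfl⟩
  have hj2 : 2 ≤ j := by
    rw [hj, Nat.le_div_iff_mul_le hd]; omega
  have hjn : (j - 1) * d < n := by
    have h3 : j * d ≤ n + d - 1 := by rw [hj]; exact Nat.div_mul_le_self _ _
    have h4 : (j - 1) * d + d = j * d := by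
      rw [← Nat.succ_mul]; congr 1; omega
    omega
  rw [← hj]
  let δ : MvPolynomial (Fin n × Fin n) K → MvPolynomial (Fin n × Fin n) K :=
    fun f => f - C (constantCoeff f)
  have hδ0 : ∀ f ∈ δ '' S, constantCoeff f = 0 := by
    rintro _ ⟨f, -, rfl⟩
    show constantCoeff (f - C (constantCoeff f)) = 0
    rw [map_sub, constantCoeff_C, sub_self]
  have hδd : ∀ f ∈ δ '' S, f.totalDegree ≤ d := by
    rintro _ ⟨f, hf, rfl⟩
    refine (totalDegree_sub _ _).trans ?_
    rw [totalDegree_C]
    exact max_le (hS f hf) (Nat.zero_le _)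
  have h3 : per K n + R ∈ Algebra.adjoin K (δ '' S) := by
    refine Algebra.adjoin_le ?_ h
    intro f hf
    have h4 : f = δ f + algebraMap K _ (constantCoeff f) := by
      show f = f - C (constantCoeff f) + C (constantCoeff f)
      ring
    rw [h4]
    exact add_mem (Algebra.subset_adjoin ⟨f, hf, rfl⟩) (Subalgebra.algebraMap_mem _ _)
  rw [Algebra.adjoin_eq_range] at h3
  obtain ⟨q, hq⟩ := h3
  have hq' : aeval (fun f : (δ '' S : Set _) => (f : MvPolynomial (Fin n × Fin n) K)) q =
      per K n + R := hq
  -- the monomials of `q`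
  have hterm : ∀ m : (δ '' S : Set _) →₀ ℕ,
      aeval (fun f : (δ '' S : Set _) => (f : MvPolynomial (Fin n × Fin n) K))
        (monomial m (q.coeff m)) = C (q.coeff m) * ∏ f ∈ m.support,
          (f : MvPolynomial (Fin n × Fin n) K) ^ m f := by
    intro m
    rw [aeval_monomial]
    rfl
  have hsplit : per K n + R =
      (∑ m ∈ q.support with m.degree < j, C (q.coeff m) * ∏ f ∈ m.support,
          (f : MvPolynomial (Fin n × Fin n) K) ^ m f) +
      ∑ m ∈ q.support with ¬ m.degree < j, C (q.coeff m) * ∏ f ∈ m.support,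
          (f : MvPolynomial (Fin n × Fin n) K) ^ m f := by
    rw [sum_filter_add_sum_filter_not, ← hq']
    conv_lhs => rw [q.as_sum, map_sum]
    exact sum_congr rfl fun m _ => hterm m
  set q1 := ∑ m ∈ q.support with m.degree < j, C (q.coeff m) * ∏ f ∈ m.support,
          (f : MvPolynomial (Fin n × Fin n) K) ^ m f with hq1
  set q2 := ∑ m ∈ q.support with ¬ m.degree < j, C (q.coeff m) * ∏ f ∈ m.support,
          (f : MvPolynomial (Fin n × Fin n) K) ^ m f with hq2
  have hlow : q1.totalDegree < n := by
    refine lt_of_le_of_lt (totalDegree_finsetSum_le fun m hm => ?_) hjn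
    rw [mem_filter] at hm
    refine (totalDegree_mul _ _).trans ?_
    rw [totalDegree_C, zero_add]
    refine (totalDegree_finsetProd _ _).trans ?_
    calc ∑ f ∈ m.support, ((f : MvPolynomial (Fin n × Fin n) K) ^ m f).totalDegree
        ≤ ∑ f ∈ m.support, m f * d := sum_le_sum fun f _ =>
          (totalDegree_pow _ _).trans (Nat.mul_le_mul_left _ (hδd f f.2))
      _ = m.degree * d := by rw [← sum_mul]; rfl
      _ ≤ (j - 1) * d := Nat.mul_le_mul_right _ (by omega)
  have hhigh : q2 ∈ Ideal.span (δ '' S) ^ j := by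
    refine Ideal.sum_mem _ fun m hm => Ideal.mul_mem_left _ _ ?_
    rw [mem_filter] at hm
    have h5 : ∀ t : Finset (δ '' S : Set _), ∏ f ∈ t, (f : MvPolynomial (Fin n × Fin n) K) ^ m f ∈
        Ideal.span (δ '' S) ^ (∑ f ∈ t, m f) := by
      intro t
      induction t using Finset.induction_on with
      | empty => simp
      | insert f t hf ih =>
        rw [prod_insert hf, sum_insert hf, pow_add]
        exact Ideal.mul_mem_mul (Ideal.pow_mem_pow (Ideal.subset_span f.2) _) ih
    exact Ideal.pow_le_pow_right (not_lt.1 hm.2) (h5 m.support)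
  have h6 : per K n + (R + -q1) ∈ Ideal.span (δ '' S) ^ j := by
    have : per K n + (R + -q1) = q2 := by
      linear_combination hsplit
    rw [this]; exact hhigh
  obtain ⟨s', hs', hc', hi'⟩ := power_exact h2 hj2 (low_add hR (low_neg (low_of_totalDegree hlow)))
    hδ0 h6
  -- going back to `S`
  have h7 : ∀ z : s', ∃ f ∈ S, δ f = z := fun z => hs' z.2
  choose c hcS hc using h7
  have hci : Function.Injective c := fun a b hab => Subtype.ext (by rw [← hc a, ← hc b, hab])
  refine ⟨univ.image c, ?_, ?_, ?_⟩
  · intro z hz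
    rw [coe_image] at hz
    obtain ⟨y, -, rfl⟩ := hz
    exact hcS y
  · rw [card_image_of_injective _ hci, card_univ, Fintype.card_coe, hc']
  · have h8 : AlgebraicIndependent K c := by
      refine indep_shift (fun z => constantCoeff (c z)) ?_
      convert hi' using 1
      funext z
      exact hc z
    have h9 := h8.coe_range
    have h10 : ∀ f : (univ.image c), (f : MvPolynomial (Fin n × Fin n) K) ∈ Set.range c := by
      intro f
      obtain ⟨y, -, hy⟩ := mem_image.1 f.2
      exact ⟨y, hy⟩
    exact h9.comp (fun f : (univ.image c) => (⟨f, h10 f⟩ : Set.range c))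
      fun a b hab => Subtype.ext (Subtype.mk.inj hab)

theorem per_ne_zero : per K n ≠ 0 := fun h => by
  have h1 : (eval fun p : Fin n × Fin n => if p.1 = p.2 then (1 : K) else 0) (per K n) = 1 := by
    unfold per
    rw [Matrix.permanent, map_sum]
    have h2 : (1 : Matrix (Fin n) (Fin n) K).permanent = 1 := Matrix.permanent_one
    refine Eq.trans ?_ h2
    rw [Matrix.permanent]
    refine sum_congr rfl fun π _ => ?_
    rw [map_prod]
    refine prod_congr rfl fun i _ => ?_
    rw [Matrix.of_apply, eval_X, Matrix.one_apply]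
  rw [h, map_zero] at h1
  exact zero_ne_one h1

theorem per_homog : (per K n).IsHomogeneous n := by
  have := spoly_homog (K := K) (univ : Finset (Fin n)) univ
  rwa [card_univ, Fintype.card_fin, ← per_eq] at this

theorem lt_totalDegree {d : ℕ} (hdn : d < n) {R : MvPolynomial (Fin n × Fin n) K}
    (hR : Low n R) : d < (per K n + R).totalDegree := by
  by_contra hcon
  push Not at hcon
  obtain ⟨m, hm⟩ := ne_zero_iff.1 (per_ne_zero (K := K) (n := n))
  have hdeg : m.degree = n := by
    have h0 := per_homog (K := K) (n := n) hm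
    have h1 : (Finsupp.weight (1 : Fin n × Fin n → ℕ)) m = m.degree := by
      rw [Finsupp.degree_eq_weight_one]; rfl
    rw [← h1]
    exact h0
  have hRm : R.coeff m = 0 := by
    by_contra hne
    have := hR m hne
    omega
  have h1 : (per K n + R).coeff m ≠ 0 := by rwa [coeff_add, hRm, add_zero]
  have h2 := le_totalDegree (mem_support_iff.2 h1)
  have h3 : (m.sum fun _ e => e) = m.degree := rfl
  omega

/-- Every degree cut of an arithmetic circuit for the permanent is large. -/
theorem circuit_cut (h2 : (2 : K) ≠ 0) {d m : ℕ} (hd : 1 ≤ d) (hdn : d < n)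
    {R : MvPolynomial (Fin n × Fin n) K} (hR : Low n R)
    (g : Fin (m + 1) → MvPolynomial (Fin n × Fin n) K) (op : Fin (m + 1) → Prop)
    (l r : Fin (m + 1) → Fin (m + 1))
    (hop : ∀ i, op i → l i < i ∧ r i < i ∧
      (g i = g (l i) + g (r i) ∨ g i = g (l i) * g (r i)))
    (hleaf : ∀ i, ¬ op i → (∃ v, g i = X v) ∨ ∃ c, g i = C c)
    (hout : g (Fin.last m) = per K n + R) :
    ∃ s : Finset (Fin (m + 1)), s.card = (n + d - 1) / d * n ∧
      (∀ a ∈ s, (g a).totalDegree ≤ d ∧
        ∃ i, op i ∧ (l i = a ∨ r i = a) ∧ d < (g i).totalDegree) ∧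
      AlgebraicIndependent K (fun a : s => g a) := by
  classical
  obtain ⟨S, hS⟩ : ∃ S : Set (MvPolynomial (Fin n × Fin n) K), S = g '' {a | (g a).totalDegree ≤ d ∧
    ∃ i, op i ∧ (l i = a ∨ r i = a) ∧ d < (g i).totalDegree} := ⟨_, rfl⟩
  have key : ∀ k : ℕ, ∀ i : Fin (m + 1), i.val = k → d < (g i).totalDegree →
      g i ∈ Algebra.adjoin K S := by
    intro k
    induction k using Nat.strong_induction_on with
    | _ k ih =>
      intro i hik hi
      have hopi : op i := by
        by_contra hno
        rcases hleaf i hno with ⟨v, hv⟩ | ⟨c, hc⟩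
        · rw [hv, totalDegree_X] at hi; omega
        · rw [hc, totalDegree_C] at hi; omega
      obtain ⟨hl, hr, hg⟩ := hop i hopi
      have child : ∀ a, (l i = a ∨ r i = a) → a < i → g a ∈ Algebra.adjoin K S := by
        intro a ha hai
        by_cases hda : (g a).totalDegree ≤ d
        · refine Algebra.subset_adjoin ?_
          rw [hS]
          exact ⟨a, ⟨hda, i, hopi, ha, hi⟩, rfl⟩
        · exact ih a.val (by rw [← hik]; exact hai) a rfl (not_le.1 hda)
      have h3 := child (l i) (Or.inl rfl) hl
      have h4 := child (r i) (Or.inr rfl) hr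
      rcases hg with hg | hg
      · rw [hg]; exact add_mem h3 h4
      · rw [hg]; exact mul_mem h3 h4
  have h5 : per K n + R ∈ Algebra.adjoin K S := by
    rw [← hout]
    refine key m (Fin.last m) rfl ?_
    rw [hout]
    exact lt_totalDegree hdn hR
  obtain ⟨s', hs', hc', hi'⟩ := composition h2 hd hdn hR (by
    rw [hS]
    rintro _ ⟨a, ha, rfl⟩
    exact ha.1) h5
  have h7 : ∀ z : s', ∃ a, ((g a).totalDegree ≤ d ∧
      ∃ i, op i ∧ (l i = a ∨ r i = a) ∧ d < (g i).totalDegree) ∧ g a = z := fun z => by
    have := hs' z.2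
    rw [hS] at this
    exact this
  choose c hcS hc using h7
  have hci : Function.Injective c := fun a b hab => Subtype.ext (by rw [← hc a, ← hc b, hab])
  refine ⟨univ.image c, ?_, ?_, ?_⟩
  · rw [card_image_of_injective _ hci, card_univ, Fintype.card_coe, hc']
  · intro a ha
    obtain ⟨z, -, rfl⟩ := mem_image.1 ha
    exact hcS z
  · have h8 : ∀ a : (univ.image c), g a ∈ s' := by
      intro a
      obtain ⟨z, -, hz⟩ := mem_image.1 a.2
      rw [← hz, hc z]
      exact z.2
    refine hi'.comp (fun a : (univ.image c) => (⟨g a, h8 a⟩ : s')) fun a b hab => ?_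
    obtain ⟨z, -, hz⟩ := mem_image.1 a.2
    obtain ⟨z', -, hz'⟩ := mem_image.1 b.2
    apply Subtype.ext
    have h9 : g a = g b := Subtype.mk.inj hab
    rw [← hz, ← hz', hc, hc] at h9
    rw [← hz, ← hz', Subtype.ext h9]

/-- Sums of products. -/
theorem sum_of_products (h2 : (2 : K) ≠ 0) {w : ℕ}
    {R : MvPolynomial (Fin n × Fin n) K} (hR : Low n R)
    (p q : Fin w → MvPolynomial (Fin n × Fin n) K) (hp : ∀ v, constantCoeff (p v) = 0)
    (hq : ∀ v, constantCoeff (q v) = 0) (h : per K n + R = ∑ v, p v * q v) : n ≤ w := by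
  classical
  obtain ⟨s, hs, hc, -⟩ := power_exact h2 (le_refl 2) hR
    (S := ((univ.image p ∪ univ.image q : Finset _) : Set _)) (by
      intro f hf
      rw [mem_coe, mem_union, mem_image, mem_image] at hf
      rcases hf with ⟨v, -, rfl⟩ | ⟨v, -, rfl⟩
      · exact hp v
      · exact hq v) (by
      rw [h]
      refine Ideal.sum_mem _ fun v _ => ?_
      rw [pow_two]
      refine Ideal.mul_mem_mul (Ideal.subset_span ?_) (Ideal.subset_span ?_)
      · rw [mem_coe, mem_union]; exact Or.inl (mem_image_of_mem p (mem_univ v))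
      · rw [mem_coe, mem_union]; exact Or.inr (mem_image_of_mem q (mem_univ v)))
  have h3 := card_le_card (coe_subset.1 hs)
  have h4 := (h3.trans (card_union_le _ _)).trans
    (Nat.add_le_add (card_image_le (s := univ) (f := p)) (card_image_le (s := univ) (f := q)))
  rw [hc, card_univ, Fintype.card_fin] at h4
  omega

end Pool.Agent.V7H84.Perm
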