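import Pool.Agent.V7H84.Perm.Sq

/-!
# The relations of a degenerating row

`PP`, `QQ` and `EE` are the parts of degree zero, one and (twice) two in the variable `X c` of a product
of linear forms `u i + a i X c`.
-/

set_option autoImplicit false
set_option linter.unusedSectionVars false

namespace Pool.Agent.V7H84.Perm

open MvPolynomial Finset

variable {σ : Type*} [DecidableEq σ] {ι : Type*} [DecidableEq ι] {R : Type*} [CommRing R]

/-- The product of the `u i`. -/
noncomputable def PP (u : ι → MvPolynomial σ R) (T : Finset ι) : MvPolynomial σ R := ∏ i ∈ T, u i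

/-- The sum of the products with one factor `u i` replaced by `a i`. -/
noncomputable def QQ (u : ι → MvPolynomial σ R) (a : ι → R) (T : Finset ι) : MvPolynomial σ R :=
  ∑ i ∈ T, C (a i) * PP u (T.erase i)

/-- The sum of the products with two factors replaced (each product counted twice). -/
noncomputable def EE (u : ι → MvPolynomial σ R) (a : ι → R) (T : Finset ι) : MvPolynomial σ R :=
  ∑ i ∈ T, C (a i) * QQ u a (T.erase i)

variable (u : ι → MvPolynomial σ R) (a : ι → R)

theorem PP_insert {i : ι} {T : Finset ι} (hi : i ∉ T) : PP u (insert i T) = u i * PP u T :=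
  prod_insert hi

theorem erase_insert_comm {i l : ι} {T : Finset ι} (hi : i ∉ T) (hl : l ∈ T) :
    (insert i T).erase l = insert i (T.erase l) :=
  erase_insert_of_ne fun e => hi (e ▸ hl)

theorem QQ_insert {i : ι} {T : Finset ι} (hi : i ∉ T) :
    QQ u a (insert i T) = C (a i) * PP u T + u i * QQ u a T := by
  unfold QQ
  rw [sum_insert hi, erase_insert hi, mul_sum]
  congr 1
  refine sum_congr rfl fun l hl => ?_
  rw [erase_insert_comm hi hl, PP_insert u fun h => hi (erase_subset _ _ h)]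
  ring

theorem EE_insert {i : ι} {T : Finset ι} (hi : i ∉ T) :
    EE u a (insert i T) = 2 * (C (a i) * QQ u a T) + u i * EE u a T := by
  unfold EE
  rw [sum_insert hi, erase_insert hi, mul_sum]
  have h1 : ∀ l ∈ T, C (a l) * QQ u a ((insert i T).erase l) =
      C (a i) * (C (a l) * PP u (T.erase l)) + u i * (C (a l) * QQ u a (T.erase l)) := by
    intro l hl
    rw [erase_insert_comm hi hl, QQ_insert u a fun h => hi (erase_subset _ _ h)]
    ring
  rw [sum_congr rfl h1, sum_add_distrib, ← mul_sum]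
  have h2 : ∑ l ∈ T, C (a l) * PP u (T.erase l) = QQ u a T := rfl
  rw [h2]
  ring

/-- The expansion of a product of the `u i + a i X c`. -/
theorem expand (c : σ) (T : Finset ι) :
    ∃ w : MvPolynomial σ R, ∏ i ∈ T, (u i + C (a i) * X c) =
      PP u T + X c * QQ u a T + X c ^ 2 * w := by
  induction T using Finset.induction_on with
  | empty => exact ⟨0, by simp [PP, QQ]⟩
  | insert i T hi ih =>
    obtain ⟨w, hw⟩ := ih
    refine ⟨C (a i) * QQ u a T + u i * w + X c * C (a i) * w, ?_⟩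
    rw [prod_insert hi, hw, PP_insert u hi, QQ_insert u a hi]
    ring

variable {u a}

theorem Fr.PP {c : σ} (hu : ∀ i, Fr c (u i)) (T : Finset ι) : Fr c (PP u T) :=
  Fr.prod _ _ fun i _ => hu i

theorem Fr.QQ {c : σ} (hu : ∀ i, Fr c (u i)) (T : Finset ι) : Fr c (QQ u a T) :=
  Fr.sum _ _ fun i _ => (Fr.PP hu _).C_mul _

/-- A product which vanishes: both parts vanish. -/
theorem rel_prod {c : σ} (hu : ∀ i, Fr c (u i)) {T : Finset ι}
    (h : ∏ i ∈ T, (u i + C (a i) * X c) ∈ Jsq σ R) : PP u T ∈ Jsq σ R ∧ QQ u a T ∈ Jsq σ R := by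
  obtain ⟨w, hw⟩ := expand u a c T
  rw [hw] at h
  refine split (Fr.PP hu T) (Fr.QQ hu T) ?_
  have := (Jsq σ R).sub_mem h (X_sq_mul_mem c w)
  rwa [add_sub_cancel_right] at this

/-- A product with the degenerating row `X c + ε ρ` which vanishes. -/
theorem rel_row [NoZeroDivisors R] {c : σ} (hu : ∀ i, Fr c (u i)) {T : Finset ι} {ε : R}
    (hε : ε ≠ 0) {ρ : MvPolynomial σ R} (hρ : Fr c ρ)
    (h : (X c + C ε * ρ) * ∏ i ∈ T, (u i + C (a i) * X c) ∈ Jsq σ R) :
    PP u T + C ε * (ρ * QQ u a T) ∈ Jsq σ R ∧ ρ * (ρ * QQ u a T) ∈ Jsq σ R := by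
  obtain ⟨w, hw⟩ := expand u a c T
  have h1 : C ε * (ρ * PP u T) + X c * (PP u T + C ε * (ρ * QQ u a T)) ∈ Jsq σ R := by
    have h2 := (Jsq σ R).sub_mem h
      (X_sq_mul_mem c (QQ u a T + (X c + C ε * ρ) * w))
    rw [hw] at h2
    convert h2 using 1
    ring
  obtain ⟨h2, h3⟩ := split ((hρ.mul (Fr.PP hu T)).C_mul ε)
    ((Fr.PP hu T).add ((hρ.mul (Fr.QQ hu T)).C_mul ε)) h1
  have h4 := mem_of_C_mul hε h2
  refine ⟨h3, mem_of_C_mul hε ?_⟩
  have h5 := (Jsq σ R).sub_mem ((Jsq σ R).mul_mem_left ρ h3) h4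
  convert h5 using 1
  ring

/-- The third relation. -/
theorem rel_third [NoZeroDivisors R] {T : Finset ι} {ε : R} (hε : ε ≠ 0) {ρ : MvPolynomial σ R}
    (h1 : ∀ i ∈ T, PP u (T.erase i) + C ε * (ρ * QQ u a (T.erase i)) ∈ Jsq σ R)
    (h2 : QQ u a T ∈ Jsq σ R) : ρ * EE u a T ∈ Jsq σ R := by
  refine mem_of_C_mul hε ?_
  have h3 : ∑ i ∈ T, C (a i) * (PP u (T.erase i) + C ε * (ρ * QQ u a (T.erase i))) ∈ Jsq σ R :=
    Ideal.sum_mem _ fun i hi => (Jsq σ R).mul_mem_left _ (h1 i hi)
  have h4 := (Jsq σ R).sub_mem h3 h2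
  convert h4 using 1
  unfold QQ EE
  rw [← sum_sub_distrib, mul_sum, mul_sum]
  refine sum_congr rfl fun i _ => ?_
  unfold QQ
  ring

theorem map_PP {R' : Type*} [CommRing R'] (f : R →+* R') (T : Finset ι) :
    map f (PP u T) = PP (fun i => map f (u i)) T := map_prod _ _ _

theorem map_QQ {R' : Type*} [CommRing R'] (f : R →+* R') (T : Finset ι) :
    map f (QQ u a T) = QQ (fun i => map f (u i)) (fun i => f (a i)) T := by
  unfold QQ
  rw [map_sum]
  refine sum_congr rfl fun i _ => ?_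
  rw [map_mul, map_C, map_PP]

theorem map_EE {R' : Type*} [CommRing R'] (f : R →+* R') (T : Finset ι) :
    map f (EE u a T) = EE (fun i => map f (u i)) (fun i => f (a i)) T := by
  unfold EE
  rw [map_sum]
  refine sum_congr rfl fun i _ => ?_
  rw [map_mul, map_C, map_QQ]

end Pool.Agent.V7H84.Perm
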