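import Pool.Agent.V7H84.Perm.Rk
import Pool.Agent.V7H84.Perm.Rel

/-!
# Counting parameters in the limit of a degeneration
-/

set_option autoImplicit false
set_option linter.unusedSectionVars false

universe u

namespace Pool.Agent.V7H84.Perm

open MvPolynomial Finset IntermediateField

variable {K : Type u} [Field K] {F : Type u} [Field F] [Algebra K F]

/-- Quadratic equations between each two of the `y i`. -/
theorem quad {κ : Type*} [DecidableEq κ] {X : Set F} (hX : X.Finite) (y : κ → F) (Y : Finset κ)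
    (h : ∀ i ∈ Y, ∀ j ∈ Y, i ≠ j → ∃ q ∈ adjoin K X, q ≠ 0 ∧ ∃ α ∈ adjoin K X,
      ∃ β ∈ adjoin K X, ∃ γ ∈ adjoin K X, q * (y i * y j) + α * y i + β * y j + γ = 0) :
    rk K (X ∪ y '' (Y : Set κ)) ≤ rk K X + 1 := by
  by_cases h0 : ∀ i ∈ Y, y i ∈ adjoin K X
  · refine (rk_mono hX ?_).trans (Nat.le_succ _)
    rintro z (hz | ⟨i, hi, rfl⟩)
    · exact subset_adjoin K X hz
    · exact h0 i hi
  push Not at h0
  obtain ⟨i0, hi0, hi1⟩ := h0
  have h1 := rk_le_of (K := K) (Z := X ∪ y '' (Y : Set κ)) hX y {i0} ?_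
  · simpa using h1
  have hle : adjoin K X ≤ adjoin K (X ∪ y '' (({i0} : Finset κ) : Set κ)) :=
    adjoin.mono K _ _ Set.subset_union_left
  have hy0 : y i0 ∈ adjoin K (X ∪ y '' (({i0} : Finset κ) : Set κ)) :=
    subset_adjoin K _ (Or.inr ⟨i0, by simp, rfl⟩)
  rintro z (hz | ⟨j, hj, rfl⟩)
  · exact hle (subset_adjoin K X hz)
  · by_cases hj0 : i0 = j
    · rw [← hj0]; exact hy0
    obtain ⟨q, hq, hq0, α, hα, β, hβ, γ, hγ, he⟩ := h i0 hi0 j hj hj0
    have hne : q * y i0 + β ≠ 0 := fun e => hi1 (by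
      have : y i0 = -β / q := by
        field_simp
        linear_combination e
      rw [this]
      exact div_mem (neg_mem hβ) hq)
    have h2 : y j = -(α * y i0 + γ) / (q * y i0 + β) := by
      rw [eq_div_iff hne]
      linear_combination he
    rw [h2]
    exact div_mem (neg_mem (add_mem (mul_mem (hle hα) hy0) (hle hγ)))
      (add_mem (mul_mem (hle hq) hy0) (hle hβ))

variable {σ : Type*} [DecidableEq σ] {ι : Type*} [DecidableEq ι]

/-- The polynomials with coefficients in the intermediate field `E`. -/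
noncomputable def CF (σ : Type*) (E : IntermediateField K F) : Subring (MvPolynomial σ F) :=
  (MvPolynomial.map (algebraMap E F)).range

theorem CF.sc {E : IntermediateField K F} {p : MvPolynomial σ F} (hp : p ∈ CF σ E)
    (S : Finset σ) : Perm.sc p S ∈ E := by
  obtain ⟨p, rfl⟩ := hp
  rw [sc_map]
  exact (Perm.sc p S).2

theorem CF.C {E : IntermediateField K F} {e : F} (he : e ∈ E) :
    (MvPolynomial.C e : MvPolynomial σ F) ∈ CF σ E :=
  ⟨MvPolynomial.C ⟨e, he⟩, by rw [MvPolynomial.map_C]; rfl⟩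

theorem CF.X (E : IntermediateField K F) (j : σ) : (MvPolynomial.X j : MvPolynomial σ F) ∈ CF σ E :=
  ⟨MvPolynomial.X j, by rw [MvPolynomial.map_X]⟩

theorem CF.lin {E : IntermediateField K F} {s : Finset σ} {x : σ → F} (h : ∀ j ∈ s, x j ∈ E) :
    Perm.lin s x ∈ CF σ E :=
  sum_mem fun j hj => mul_mem (CF.C (h j hj)) (CF.X E j)

theorem CF.PP {E : IntermediateField K F} {v : ι → MvPolynomial σ F} {T : Finset ι}
    (h : ∀ i ∈ T, v i ∈ CF σ E) : Perm.PP v T ∈ CF σ E := prod_mem h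

theorem CF.QQ {E : IntermediateField K F} {v : ι → MvPolynomial σ F} {a : ι → F} {T : Finset ι}
    (h : ∀ i ∈ T, v i ∈ CF σ E) (ha : ∀ i ∈ T, a i ∈ E) : Perm.QQ v a T ∈ CF σ E :=
  sum_mem fun i hi => mul_mem (CF.C (ha i hi)) (CF.PP fun l hl => h l (erase_subset _ _ hl))

theorem CF.EE {E : IntermediateField K F} {v : ι → MvPolynomial σ F} {a : ι → F} {T : Finset ι}
    (h : ∀ i ∈ T, v i ∈ CF σ E) (ha : ∀ i ∈ T, a i ∈ E) : Perm.EE v a T ∈ CF σ E :=
  sum_mem fun i hi => mul_mem (CF.C (ha i hi)) (CF.QQ (fun l hl => h l (erase_subset _ _ hl))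
    fun l hl => ha l (erase_subset _ _ hl))

theorem CF.mono {E E' : IntermediateField K F} (h : E ≤ E') {p : MvPolynomial σ F}
    (hp : p ∈ CF σ E) : p ∈ CF σ E' := by
  obtain ⟨p, rfl⟩ := hp
  refine ⟨MvPolynomial.map (inclusion h).toRingHom p, ?_⟩
  rw [MvPolynomial.map_map]
  rfl

/-- The entries in the rows of `I` and the columns of `s`. -/
def ent (x : ι → σ → F) (I : Finset ι) (s : Finset σ) : Set F :=
  (fun p : ι × σ => x p.1 p.2) '' (↑(I ×ˢ s) : Set (ι × σ))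

theorem ent_finite (x : ι → σ → F) (I : Finset ι) (s : Finset σ) : (ent x I s).Finite :=
  (Finset.finite_toSet _).image _

theorem mem_ent {x : ι → σ → F} {I : Finset ι} {s : Finset σ} {i : ι} {j : σ} (hi : i ∈ I)
    (hj : j ∈ s) : x i j ∈ ent x I s :=
  ⟨(i, j), by simp [hi, hj], rfl⟩

/-- The loss in the parameters `ρ j` when `ρ p` vanishes. -/
theorem loss_lin {D : Set F} {s : Finset σ} {ρ : σ → F}
    {p : MvPolynomial σ F} (hp : p ∈ CF σ (adjoin K D)) {S : Finset σ} (hS : S ⊆ s)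
    (hq : sc p S ≠ 0) (h : lin s ρ * p ∈ Jsq σ F) {l : σ} (hl : l ∈ s) (hlS : l ∉ S) :
    ρ l ∈ adjoin K (D ∪ ρ '' (S : Set σ)) := by
  have hle : adjoin K D ≤ adjoin K (D ∪ ρ '' (S : Set σ)) :=
    adjoin.mono K _ _ Set.subset_union_left
  have h1 := h (insert l S)
  rw [sc_lin_mul, inter_eq_right.2 (insert_subset hl hS), sum_insert hlS,
    erase_insert hlS] at h1
  have h2 : ρ l = -(∑ j ∈ S, ρ j * sc p ((insert l S).erase j)) / sc p S := by
    rw [eq_div_iff hq]
    linear_combination h1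
  rw [h2]
  refine div_mem (neg_mem (sum_mem fun j hj => mul_mem ?_ ?_)) (hle (CF.sc hp S))
  · exact subset_adjoin K _ (Or.inr ⟨j, hj, rfl⟩)
  · exact hle (CF.sc hp _)

/-- The equations between the parameters `ρ j` when `ρ ^ 2 p` vanishes. -/
theorem loss_quad (h2 : (2 : F) ≠ 0) {D : Set F} {s : Finset σ} {ρ : σ → F}
    {p : MvPolynomial σ F} (hp : p ∈ CF σ (adjoin K D)) {S : Finset σ} (hS : S ⊆ s)
    (hq : sc p S ≠ 0) (h : lin s ρ * (lin s ρ * p) ∈ Jsq σ F) {l l' : σ} (hl : l ∈ s \ S)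
    (hl' : l' ∈ s \ S) (hne : l ≠ l') :
    ∃ q ∈ adjoin K (D ∪ ρ '' (S : Set σ)), q ≠ 0 ∧ ∃ α ∈ adjoin K (D ∪ ρ '' (S : Set σ)),
      ∃ β ∈ adjoin K (D ∪ ρ '' (S : Set σ)), ∃ γ ∈ adjoin K (D ∪ ρ '' (S : Set σ)),
      q * (ρ l * ρ l') + α * ρ l + β * ρ l' + γ = 0 := by
  rw [mem_sdiff] at hl hl'
  obtain ⟨E, hE⟩ : ∃ E, E = adjoin K (D ∪ ρ '' (S : Set σ)) := ⟨_, rfl⟩
  have hle : adjoin K D ≤ E := by rw [hE]; exact adjoin.mono K _ _ Set.subset_union_left
  have hp' : p ∈ CF σ E := CF.mono hle hp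
  have hτ : lin S ρ ∈ CF σ E := CF.lin fun j hj => by
    rw [hE]; exact subset_adjoin K _ (Or.inr ⟨j, hj, rfl⟩)
  rw [← hE]
  obtain ⟨S3, hS3⟩ : ∃ S3, S3 = insert l (insert l' S) := ⟨_, rfl⟩
  have hl3 : l ∉ insert l' S := by
    rw [mem_insert]; rintro (e | e)
    · exact hne e
    · exact hl.2 e
  have h3 := h S3
  have h4 : s ∩ S3 = S3 := by
    rw [hS3]
    exact inter_eq_right.2 (insert_subset hl.1 (insert_subset hl'.1 hS))
  rw [sc_lin_mul_inter2, h4] at h3
  have h5 : lin S3 ρ = C (ρ l) * X l + (C (ρ l') * X l' + lin S ρ) := by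
    unfold lin
    rw [hS3, sum_insert hl3, sum_insert hl'.2]
  have h6 : lin S3 ρ * (lin S3 ρ * p) = C (2 * (ρ l * ρ l')) * (X l * (X l' * p)) +
      C (ρ l) * (2 * (X l * (lin S ρ * p))) + C (ρ l') * (2 * (X l' * (lin S ρ * p))) +
      lin S ρ * (lin S ρ * p) + X l ^ 2 * (C (ρ l) ^ 2 * p) + X l' ^ 2 * (C (ρ l') ^ 2 * p) := by
    rw [h5, map_mul, map_mul]
    have : (C 2 : MvPolynomial σ F) = 2 := by rw [map_ofNat]
    rw [this]
    ring
  rw [h6] at h3
  simp only [sc_add, sc_C_mul] at h3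
  rw [X_sq_mul_mem, X_sq_mul_mem, sc_X_mul, if_pos (by rw [hS3]; exact mem_insert_self _ _),
    sc_X_mul, if_pos (by rw [hS3, erase_insert hl3]; exact mem_insert_self _ _)] at h3
  have h7 : (S3.erase l).erase l' = S := by
    rw [hS3, erase_insert hl3, erase_insert hl'.2]
  rw [h7] at h3
  have h2' : (2 : MvPolynomial σ F) ∈ CF σ E := by
    have : (2 : MvPolynomial σ F) = 1 + 1 := by norm_num
    rw [this]; exact add_mem (one_mem _) (one_mem _)
  refine ⟨2 * sc p S, mul_mem (ofNat_mem E 2) (CF.sc hp' S), mul_ne_zero h2 hq,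
    sc (2 * (X l * (lin S ρ * p))) S3, ?_, sc (2 * (X l' * (lin S ρ * p))) S3, ?_,
    sc (lin S ρ * (lin S ρ * p)) S3, ?_, ?_⟩
  · exact CF.sc (mul_mem h2' (mul_mem (CF.X E l) (mul_mem hτ hp'))) _
  · exact CF.sc (mul_mem h2' (mul_mem (CF.X E l') (mul_mem hτ hp'))) _
  · exact CF.sc (mul_mem hτ (mul_mem hτ hp')) _
  · linear_combination h3

/-- The loss in the parameters `a i` when `ρ ^ 2 P U` does not vanish. -/
theorem loss_a {E : IntermediateField K F} {v : ι → MvPolynomial σ F} {a : ι → F}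
    {r : MvPolynomial σ F} (hr : r ∈ CF σ E) {U : Finset ι} {i : ι} (hi : i ∉ U)
    (hv : ∀ l ∈ insert i U, v l ∈ CF σ E) (ha : ∀ l ∈ U, a l ∈ E) {S : Finset σ}
    (hq : sc (r * (r * PP v U)) S ≠ 0) (h : r * (r * QQ v a (insert i U)) ∈ Jsq σ F) :
    a i ∈ E := by
  have h1 : r * (r * QQ v a (insert i U)) =
      C (a i) * (r * (r * PP v U)) + r * (r * (v i * QQ v a U)) := by
    rw [QQ_insert v a hi]; ring
  have h2 := h S
  rw [h1, sc_add, sc_C_mul] at h2
  have hv' : ∀ l ∈ U, v l ∈ CF σ E := fun l hl => hv l (mem_insert_of_mem hl)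
  have h3 : a i = -sc (r * (r * (v i * QQ v a U))) S / sc (r * (r * PP v U)) S := by
    rw [eq_div_iff hq]
    linear_combination h2
  rw [h3]
  exact div_mem (neg_mem (CF.sc (mul_mem hr (mul_mem hr (mul_mem (hv i (mem_insert_self _ _))
    (CF.QQ hv' ha)))) S)) (CF.sc (mul_mem hr (mul_mem hr (CF.PP hv'))) S)

/-- The equations between the parameters `a i` when `ρ P U` does not vanish. -/
theorem loss_aa (h2 : (2 : F) ≠ 0) {E : IntermediateField K F} {v : ι → MvPolynomial σ F}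
    {a : ι → F} {r : MvPolynomial σ F} (hr : r ∈ CF σ E) {U : Finset ι} {i j : ι}
    (hi : i ∉ insert j U) (hj : j ∉ U) (hv : ∀ l ∈ insert i (insert j U), v l ∈ CF σ E)
    (ha : ∀ l ∈ U, a l ∈ E) {S : Finset σ} (hq : sc (r * PP v U) S ≠ 0)
    (h : r * EE v a (insert i (insert j U)) ∈ Jsq σ F) :
    ∃ q ∈ E, q ≠ 0 ∧ ∃ α ∈ E, ∃ β ∈ E, ∃ γ ∈ E,
      q * (a i * a j) + α * a i + β * a j + γ = 0 := by
  have h1 : r * EE v a (insert i (insert j U)) = C (2 * (a i * a j)) * (r * PP v U) +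
      C (a i) * (2 * (r * (v j * QQ v a U))) + C (a j) * (2 * (r * (v i * QQ v a U))) +
      r * (v i * (v j * EE v a U)) := by
    rw [EE_insert v a hi, EE_insert v a hj, QQ_insert v a hj, map_mul, map_mul]
    have : (C 2 : MvPolynomial σ F) = 2 := by rw [map_ofNat]
    rw [this]
    ring
  have h3 := h S
  rw [h1] at h3
  simp only [sc_add, sc_C_mul] at h3
  have h2' : (2 : MvPolynomial σ F) ∈ CF σ E := by
    have : (2 : MvPolynomial σ F) = 1 + 1 := by norm_num
    rw [this]; exact add_mem (one_mem _) (one_mem _)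
  have hvi : v i ∈ CF σ E := hv i (mem_insert_self _ _)
  have hvj : v j ∈ CF σ E := hv j (mem_insert_of_mem (mem_insert_self _ _))
  have hv' : ∀ l ∈ U, v l ∈ CF σ E := fun l hl =>
    hv l (mem_insert_of_mem (mem_insert_of_mem hl))
  refine ⟨2 * sc (r * PP v U) S, mul_mem (ofNat_mem E 2) (CF.sc (mul_mem hr (CF.PP hv')) S),
    mul_ne_zero h2 hq, sc (2 * (r * (v j * QQ v a U))) S, ?_,
    sc (2 * (r * (v i * QQ v a U))) S, ?_, sc (r * (v i * (v j * EE v a U))) S, ?_, ?_⟩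
  · exact CF.sc (mul_mem h2' (mul_mem hr (mul_mem hvj (CF.QQ hv' ha)))) S
  · exact CF.sc (mul_mem h2' (mul_mem hr (mul_mem hvi (CF.QQ hv' ha)))) S
  · exact CF.sc (mul_mem hr (mul_mem hvi (mul_mem hvj (CF.EE hv' ha)))) S
  · linear_combination h3

/-- The count of the parameters. -/
theorem count (h2 : (2 : F) ≠ 0) {x : ι → σ → F} {a : ι → F} {ρ : σ → F} {I : Finset ι}
    {s : Finset σ} {k : ℕ} (hIs : I.card ≤ s.card) (hk : 1 ≤ k ∨ I.card < s.card)
    (r1 : ∀ T ⊆ I, I.card ≤ T.card + k → PP (fun i => lin s (x i)) T ∈ Jsq σ F)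
    (r2 : ∀ T ⊆ I, I.card ≤ T.card + k →
      lin s ρ * (lin s ρ * QQ (fun i => lin s (x i)) a T) ∈ Jsq σ F)
    (r3 : ∀ T ⊆ I, I.card + 1 ≤ T.card + k →
      lin s ρ * EE (fun i => lin s (x i)) a T ∈ Jsq σ F)
    (ihk : rk K (ent x I s) + (k + 1) * s.card ≤ I.card * s.card)
    (ihk1 : (∀ T ⊆ I, I.card ≤ T.card + (k + 1) → PP (fun i => lin s (x i)) T ∈ Jsq σ F) →
      rk K (ent x I s) + (k + 2) * s.card ≤ I.card * s.card) (β : F) :
    rk K (insert β (ent x I s ∪ ρ '' (s : Set σ) ∪ a '' (I : Set ι))) +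
      (k + 1) * (s.card + 1) ≤ (I.card + 1) * (s.card + 1) := by
  obtain ⟨v, hv⟩ : ∃ v : ι → MvPolynomial σ F, v = fun i => lin s (x i) := ⟨_, rfl⟩
  rw [← hv] at r1 r2 r3 ihk1
  obtain ⟨D0, hD0⟩ : ∃ D0, D0 = ent x I s := ⟨_, rfl⟩
  rw [← hD0] at ihk ihk1 ⊢
  have fD0 : D0.Finite := by rw [hD0]; exact ent_finite x I s
  obtain ⟨D1, hD1⟩ : ∃ D1, D1 = D0 ∪ ρ '' (s : Set σ) := ⟨_, rfl⟩
  have fD1 : D1.Finite := by rw [hD1]; exact fD0.union (s.finite_toSet.image ρ)
  obtain ⟨D2, hD2⟩ : ∃ D2, D2 = insert β D1 := ⟨_, rfl⟩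
  have fD2 : D2.Finite := by rw [hD2]; exact fD1.insert β
  rw [← hD1]
  obtain ⟨Z, hZ⟩ : ∃ Z, Z = insert β (D1 ∪ a '' (I : Set ι)) := ⟨_, rfl⟩
  rw [← hZ]
  have hZ' : Z = D2 ∪ a '' (I : Set ι) := by rw [hZ, hD2, Set.insert_union]
  -- the trivial bounds
  have b0 : rk K D1 ≤ rk K D0 + s.card := rk_le_of fD0 ρ s fun z hz => by
    rw [hD1] at hz; exact subset_adjoin K _ hz
  have b1 : rk K D2 ≤ rk K D1 + 1 := by
    have := rk_le_of (K := K) (Z := D2) fD1 (fun _ : Unit => β) {()} fun z hz => ?_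
    · simpa using this
    · rw [hD2] at hz
      rcases hz with rfl | hz
      · exact subset_adjoin K _ (Or.inr ⟨(), by simp, rfl⟩)
      · exact subset_adjoin K _ (Or.inl hz)
  have b2 : rk K Z ≤ rk K D2 + I.card := rk_le_of fD2 a I fun z hz => by
    rw [hZ'] at hz; exact subset_adjoin K _ hz
  -- the coefficients
  have hvD : ∀ E : IntermediateField K F, (∀ z ∈ D0, z ∈ E) → ∀ l ∈ I, v l ∈ CF σ E := by
    intro E hE l hl
    rw [hv]
    exact CF.lin fun j hj => hE _ (by rw [hD0]; exact mem_ent hl hj)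
  by_cases hα : ∀ T ⊆ I, I.card ≤ T.card + (k + 1) → PP v T ∈ Jsq σ F
  · have h1 := ihk1 hα
    have h3 : k + 1 ≤ s.card := by
      rcases Nat.eq_zero_or_pos s.card with h4 | h4
      · exfalso
        have h5 := r1 ∅ (empty_subset _) (by omega)
        exact one_notMem h5
      · have h5 : (k + 2) * s.card ≤ I.card * s.card := by omega
        have h6 := Nat.le_of_mul_le_mul_right h5 h4
        omega
    nlinarith [b0, b1, b2, h1, h3]
  push Not at hα
  obtain ⟨U, hUI, hUk, hUJ⟩ := hα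
  have hUc : I.card = U.card + k + 1 := by
    by_contra hne
    exact hUJ (r1 U hUI (by omega))
  obtain ⟨S, hS⟩ : ∃ S, sc (PP v U) S ≠ 0 := by
    by_contra hcon
    push Not at hcon
    exact hUJ hcon
  obtain ⟨hSs, hSc⟩ : S ⊆ s ∧ S.card = U.card := by
    rw [hv] at hS
    exact sc_prod_card s x U S hS
  have hPD0 : PP v U ∈ CF σ (adjoin K D0) :=
    CF.PP fun l hl => hvD _ (fun z hz => subset_adjoin K _ hz) l (hUI hl)
  by_cases hA : lin s ρ * (lin s ρ * PP v U) ∈ Jsq σ F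
  swap
  · -- the loss is in the `a i`
    obtain ⟨S2, hS2⟩ : ∃ S2, sc (lin s ρ * (lin s ρ * PP v U)) S2 ≠ 0 := by
      by_contra hcon
      push Not at hcon
      exact hA hcon
    have h3 : rk K Z ≤ rk K D2 + U.card := by
      refine rk_le_of fD2 a U fun z hz => ?_
      rw [hZ'] at hz
      rcases hz with hz | ⟨i, hi, rfl⟩
      · exact subset_adjoin K _ (Or.inl hz)
      · by_cases hiU : i ∈ U
        · exact subset_adjoin K _ (Or.inr ⟨i, hiU, rfl⟩)
        · have hD : ∀ z ∈ D1, z ∈ adjoin K (D2 ∪ a '' (U : Set ι)) := fun z hz =>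
            subset_adjoin K _ (Or.inl (by rw [hD2]; exact Or.inr hz))
          refine loss_a (CF.lin fun j hj => hD _ ?_) hiU (fun l hl => hvD _ (fun z hz => hD z ?_)
            l ?_) (fun l hl => subset_adjoin K _ (Or.inr ⟨l, hl, rfl⟩)) hS2
            (r2 _ (insert_subset hi hUI) ?_)
          · rw [hD1]; exact Or.inr ⟨j, hj, rfl⟩
          · rw [hD1]; exact Or.inl hz
          · exact insert_subset hi hUI hl
          · rw [card_insert_of_notMem hiU]; omega
    have h4 : (I.card + 1) * (s.card + 1) = I.card * s.card + s.card + I.card + 1 := by ring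
    have h5 : (k + 1) * (s.card + 1) = (k + 1) * s.card + k + 1 := by ring
    omega
  by_cases hB : lin s ρ * PP v U ∈ Jsq σ F
  · have h3 : rk K D1 ≤ rk K D0 + S.card := by
      refine rk_le_of fD0 ρ S fun z hz => ?_
      rw [hD1] at hz
      rcases hz with hz | ⟨l, hl, rfl⟩
      · exact subset_adjoin K _ (Or.inl hz)
      · by_cases hlS : l ∈ S
        · exact subset_adjoin K _ (Or.inr ⟨l, hlS, rfl⟩)
        · exact loss_lin hPD0 hSs hS hB hl hlS
    have h4 : (I.card + 1) * (s.card + 1) = I.card * s.card + s.card + I.card + 1 := by ring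
    have h5 : (k + 1) * (s.card + 1) = (k + 1) * s.card + k + 1 := by ring
    omega
  · have fD3 : (D0 ∪ ρ '' (S : Set σ)).Finite := fD0.union (S.finite_toSet.image ρ)
    have h3 : rk K D1 ≤ rk K D0 + S.card + 1 := by
      have h4 := quad (K := K) fD3 ρ (s \ S) fun l hl l' hl' hne =>
        loss_quad h2 hPD0 hSs hS hA hl hl' hne
      have h5 : rk K (D0 ∪ ρ '' (S : Set σ)) ≤ rk K D0 + S.card :=
        rk_le_of fD0 ρ S fun z hz => subset_adjoin K _ hz
      have h6 : rk K D1 ≤ rk K (D0 ∪ ρ '' (S : Set σ) ∪ ρ '' ((s \ S : Finset σ) : Set σ)) := by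
        refine rk_subset (fD3.union ((s \ S).finite_toSet.image ρ)) ?_
        rw [hD1]
        rintro z (hz | ⟨l, hl, rfl⟩)
        · exact Or.inl (Or.inl hz)
        · by_cases hlS : l ∈ S
          · exact Or.inl (Or.inr ⟨l, hlS, rfl⟩)
          · exact Or.inr ⟨l, by simpa using ⟨hl, hlS⟩, rfl⟩
      omega
    have h4 : (I.card + 1) * (s.card + 1) = I.card * s.card + s.card + I.card + 1 := by ring
    have h5 : (k + 1) * (s.card + 1) = (k + 1) * s.card + k + 1 := by ring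
    rcases Nat.eq_zero_or_pos k with hk0 | hk1
    · omega
    -- the loss in the `a i`
    obtain ⟨S2, hS2⟩ : ∃ S2, sc (lin s ρ * PP v U) S2 ≠ 0 := by
      by_contra hcon
      push Not at hcon
      exact hB hcon
    have fD4 : (D2 ∪ a '' (U : Set ι)).Finite := fD2.union (U.finite_toSet.image a)
    have hD : ∀ z ∈ D1, z ∈ adjoin K (D2 ∪ a '' (U : Set ι)) := fun z hz =>
      subset_adjoin K _ (Or.inl (by rw [hD2]; exact Or.inr hz))
    have h6 := quad (K := K) fD4 a (I \ U) fun i hi j hj hne => ?_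
    · have h7 : rk K (D2 ∪ a '' (U : Set ι)) ≤ rk K D2 + U.card :=
        rk_le_of fD2 a U fun z hz => subset_adjoin K _ hz
      have h8 : rk K Z ≤ rk K (D2 ∪ a '' (U : Set ι) ∪ a '' ((I \ U : Finset ι) : Set ι)) := by
        refine rk_subset (fD4.union ((I \ U).finite_toSet.image a)) ?_
        rw [hZ']
        rintro z (hz | ⟨l, hl, rfl⟩)
        · exact Or.inl (Or.inl hz)
        · by_cases hlS : l ∈ U
          · exact Or.inl (Or.inr ⟨l, hlS, rfl⟩)
          · exact Or.inr ⟨l, by simpa using ⟨hl, hlS⟩, rfl⟩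
      omega
    · rw [mem_sdiff] at hi hj
      have hij : i ∉ insert j U := by
        rw [mem_insert]; rintro (e | e)
        · exact hne e
        · exact hi.2 e
      have hsub : insert i (insert j U) ⊆ I := insert_subset hi.1 (insert_subset hj.1 hUI)
      refine loss_aa h2 (CF.lin fun j hj => hD _ ?_) hij hj.2
        (fun l hl => hvD _ (fun z hz => hD z ?_) l (hsub hl))
        (fun l hl => subset_adjoin K _ (Or.inr ⟨l, hl, rfl⟩)) hS2 (r3 _ hsub ?_)
      · rw [hD1]; exact Or.inr ⟨j, hj, rfl⟩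
      · rw [hD1]; exact Or.inl hz
      · rw [card_insert_of_notMem hij, card_insert_of_notMem hj.2]; omega

end Pool.Agent.V7H84.Perm
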