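import Pool.Agent.V7H84.Perm.Tool

/-!
# Passing to the terms of highest degree
-/

set_option autoImplicit false

universe u

namespace Pool.Agent.V7H84.Perm

open MvPolynomial

variable {τ : Type*} {R : Type*} [CommSemiring R]

/-- All monomials of `p` have degree less than `d`. -/
def Low (d : ℕ) (p : MvPolynomial τ R) : Prop := ∀ m, p.coeff m ≠ 0 → m.degree < d

theorem Low.pderiv {d : ℕ} {p : MvPolynomial τ R} (h : Low (d + 1) p) (i : τ) :
    Low d (MvPolynomial.pderiv i p) := by
  intro m hm
  rw [coeff_pderiv] at hm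
  have h1 := h _ (left_ne_zero_of_mul hm)
  rw [map_add, Finsupp.degree_single] at h1
  omega

theorem low_of_totalDegree {d : ℕ} {p : MvPolynomial τ R} (h : p.totalDegree < d) : Low d p := by
  intro m hm
  have h1 := le_totalDegree (mem_support_iff.2 hm)
  exact lt_of_le_of_lt h1 h

variable {K : Type u} [Field K] {F : Type u} [Field F] [Algebra K F]

/-- A point can be moved to infinity: the polynomials which vanish at it are replaced by their
terms of highest degree. -/
theorem homog [Finite τ] (ξ : τ → F) :
    ∃ (F' : Type u) (_ : Field F') (_ : Algebra K F') (ζ : τ → F'),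
      rk K (Set.range ξ) ≤ rk K (Set.range ζ) ∧
      ∀ (d : ℕ) (p q : MvPolynomial τ K), p.IsHomogeneous d → Low d q →
        aeval ξ (p + q) = 0 → aeval ζ p = 0 := by
  classical
  obtain ⟨y, hy⟩ : ∃ y : τ → Polynomial F, y = fun i => Polynomial.C (ξ i) * Polynomial.X :=
    ⟨_, rfl⟩
  obtain ⟨G, hG⟩ : ∃ G : Set (Polynomial F), G = insert Polynomial.X (Set.range y) := ⟨_, rfl⟩
  have hGf : G.Finite := by rw [hG]; exact (Set.finite_range y).insert _
  have g1 : (Polynomial.X : Polynomial F) ∈ G := by rw [hG]; exact Set.mem_insert _ _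
  have g2 : ∀ i, y i ∈ G := fun i => by rw [hG]; exact Set.mem_insert_of_mem _ ⟨i, rfl⟩
  have hX : (Polynomial.X : Polynomial F) ∈ Algebra.adjoin K G := Algebra.subset_adjoin g1
  have m2 : ∀ i, y i ∈ Algebra.adjoin K G := fun i => Algebra.subset_adjoin (g2 i)
  obtain ⟨F', _, _, ψ, hψ0, hψ⟩ := spec (K := K) G hGf hX (Set.finite_range ξ) (by
    rintro _ ⟨i, rfl⟩
    have hmem : ∀ g ∈ G, algebraMap (Polynomial F) (FractionRing (Polynomial F)) g ∈
        IntermediateField.adjoin K
          (algebraMap (Polynomial F) (FractionRing (Polynomial F)) '' G) := fun g hg =>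
      IntermediateField.subset_adjoin K _ ⟨g, hg, rfl⟩
    have h3 : algebraMap (Polynomial F) (FractionRing (Polynomial F)) (Polynomial.C (ξ i)) =
        algebraMap (Polynomial F) (FractionRing (Polynomial F)) (y i) /
        algebraMap (Polynomial F) (FractionRing (Polynomial F)) Polynomial.X := by
      have h4 : algebraMap (Polynomial F) (FractionRing (Polynomial F)) Polynomial.X ≠ 0 := by
        rw [Ne, IsFractionRing.to_map_eq_zero_iff]
        exact Polynomial.X_ne_zero
      rw [eq_div_iff h4, ← map_mul, hy]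
    rw [h3]
    exact div_mem (hmem _ (g2 i)) (hmem _ g1))
  let yA : τ → Algebra.adjoin K G := fun i => ⟨y i, m2 i⟩
  let tA : Algebra.adjoin K G := ⟨Polynomial.X, hX⟩
  refine ⟨F', inferInstance, inferInstance, fun i => ψ (yA i), ?_, ?_⟩
  · refine hψ.trans (rk_mono (Set.finite_range _) ?_)
    rintro _ ⟨⟨z, hz⟩, hzG, rfl⟩
    have hzG' : z ∈ G := hzG
    rw [hG] at hzG'
    rcases hzG' with rfl | ⟨i, rfl⟩
    · rw [hψ0]; exact zero_mem _
    · exact IntermediateField.subset_adjoin K _ ⟨i, rfl⟩
  · intro d p q hp hq h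
    -- the homogenized polynomials
    have key : ∀ r : MvPolynomial τ K, (∀ m ∈ r.support, m.degree ≤ d) →
        ∃ h : Algebra.adjoin K G, (h : Polynomial F) =
          Polynomial.C (aeval ξ r) * Polynomial.X ^ d ∧
        ψ h = ∑ m ∈ r.support, algebraMap K F' (r.coeff m) *
          (0 ^ (d - m.degree) * ∏ i ∈ m.support, ψ (yA i) ^ m i) := by
      intro r hr
      refine ⟨∑ m ∈ r.support, algebraMap K (Algebra.adjoin K G) (r.coeff m) *
        (tA ^ (d - m.degree) * ∏ i ∈ m.support, yA i ^ m i), ?_, ?_⟩
      · rw [aeval_def, eval₂_eq, AddSubmonoidClass.coe_finsetSum, map_sum, Finset.sum_mul]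
        refine Finset.sum_congr rfl fun m hm => ?_
        have h1 : ((algebraMap K (Algebra.adjoin K G) (r.coeff m) *
            (tA ^ (d - m.degree) * ∏ i ∈ m.support, yA i ^ m i) : Algebra.adjoin K G) :
            Polynomial F) = Polynomial.C (algebraMap K F (r.coeff m)) *
            (Polynomial.X ^ (d - m.degree) * ∏ i ∈ m.support, (y i) ^ m i) := by
          rw [MulMemClass.coe_mul, MulMemClass.coe_mul, SubmonoidClass.coe_finsetProd]
          rfl
        rw [h1, map_mul, map_prod, hy]
        have h2 : ∏ i ∈ m.support, (Polynomial.C (ξ i) * Polynomial.X) ^ m i =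
            (∏ i ∈ m.support, Polynomial.C (ξ i ^ m i)) * Polynomial.X ^ m.degree := by
          rw [Finsupp.degree, AddMonoidHom.coe_mk, ZeroHom.coe_mk,
            ← Finset.prod_pow_eq_pow_sum, ← Finset.prod_mul_distrib]
          refine Finset.prod_congr rfl fun i _ => ?_
          rw [mul_pow, map_pow]
        rw [h2]
        have h3 : (Polynomial.X : Polynomial F) ^ d =
            Polynomial.X ^ (d - m.degree) * Polynomial.X ^ m.degree := by
          rw [← pow_add, Nat.sub_add_cancel (hr m hm)]
        rw [h3]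
        ring
      · rw [map_sum]
        refine Finset.sum_congr rfl fun m _ => ?_
        rw [map_mul, map_mul, map_pow, map_prod, AlgHom.commutes]
        have h1 : ψ tA = 0 := hψ0
        rw [h1]
        congr 2
        exact Finset.prod_congr rfl fun i _ => map_pow _ _ _
    have hdeg : ∀ m, p.coeff m ≠ 0 → m.degree = d := fun m hm => by
      have h0 := hp hm
      have h1 : (Finsupp.weight (1 : τ → ℕ)) m = m.degree := by
        rw [Finsupp.degree_eq_weight_one]; rfl
      rw [← h1]
      exact h0
    obtain ⟨h1, h1v, h1ψ⟩ := key p fun m hm => (hdeg m (mem_support_iff.1 hm)).le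
    obtain ⟨h2, h2v, h2ψ⟩ := key q fun m hm => (hq m (mem_support_iff.1 hm)).le
    have h3 : h1 + h2 = 0 := by
      apply Subtype.ext
      rw [AddMemClass.coe_add, h1v, h2v, ← add_mul, ← map_add, ← map_add, h]
      simp
    have h4 : ψ h2 = 0 := by
      rw [h2ψ]
      refine Finset.sum_eq_zero fun m hm => ?_
      have := hq m (mem_support_iff.1 hm)
      rw [zero_pow (by omega)]; ring
    have h5 : ψ h1 = 0 := by
      have := congrArg ψ h3
      rwa [map_add, h4, add_zero, map_zero] at this
    rw [← h5, h1ψ, aeval_def, eval₂_eq]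
    refine Finset.sum_congr rfl fun m hm => ?_
    rw [hdeg m (mem_support_iff.1 hm), Nat.sub_self, pow_zero, one_mul]

end Pool.Agent.V7H84.Perm
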