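import Pool.Agent.V7H84.Perm.SubPerm
import Pool.Agent.V7H84.Perm.Homog

/-!
# Derivatives of permanents and powers of ideals
-/

set_option autoImplicit false
set_option linter.unusedSectionVars false

universe u

namespace Pool.Agent.V7H84.Perm

open MvPolynomial Finset

/-- Derivations lower the power of an ideal by at most one. -/
theorem der_pow {R A : Type*} [CommRing R] [CommRing A] [Algebra R A] (D : Derivation R A A)
    (I : Ideal A) (m : ℕ) : ∀ {x : A}, x ∈ I ^ (m + 1) → D x ∈ I ^ m := by
  induction m with
  | zero => intro x _; simp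
  | succ m ih =>
    intro x hx
    rw [pow_succ'] at hx
    refine Submodule.mul_induction_on hx ?_ ?_
    · intro a ha b hb
      rw [D.leibniz, smul_eq_mul, smul_eq_mul]
      refine add_mem ?_ (Ideal.mul_mem_right _ _ hb)
      rw [pow_succ']
      exact Ideal.mul_mem_mul ha (ih hb)
    · intro a b ha hb
      rw [map_add]
      exact add_mem ha hb

variable {n : ℕ} {K : Type u} [Field K]

/-- The generic subpermanent with the rows `T` and the columns `S`. -/
noncomputable def spoly (K : Type u) [Field K] {n : ℕ} (T S : Finset (Fin n)) :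
    MvPolynomial (Fin n × Fin n) K :=
  sc (∏ i ∈ T, lin univ fun j : Fin n => (X (i, j) : MvPolynomial (Fin n × Fin n) K)) S

theorem spoly_insert {T : Finset (Fin n)} {r : Fin n} (hr : r ∉ T) (S : Finset (Fin n)) :
    spoly K (insert r T) S = ∑ j ∈ S, X (r, j) * spoly K T (S.erase j) := by
  unfold spoly
  rw [prod_insert hr, sc_lin_mul, univ_inter]

theorem spoly_homog (T S : Finset (Fin n)) : (spoly K T S).IsHomogeneous T.card := by
  induction T using Finset.induction_on generalizing S with
  | empty =>
    unfold spoly
    rw [prod_empty, sc_one, card_empty]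
    split_ifs
    · exact isHomogeneous_one _ _
    · exact isHomogeneous_zero _ _ _
  | insert r T hr ih =>
    rw [spoly_insert hr, card_insert_of_notMem hr]
    refine IsHomogeneous.sum _ _ _ fun j _ => ?_
    rw [add_comm]
    exact (isHomogeneous_X K (r, j)).mul (ih _)

theorem pderiv_spoly_zero {T : Finset (Fin n)} {r : Fin n} (hr : r ∉ T) (c : Fin n)
    (S : Finset (Fin n)) : pderiv (r, c) (spoly K T S) = 0 := by
  induction T using Finset.induction_on generalizing S with
  | empty =>
    unfold spoly
    rw [prod_empty, sc_one]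
    split_ifs <;> simp
  | insert i T hi ih =>
    rw [mem_insert, not_or] at hr
    rw [spoly_insert hi, map_sum]
    refine sum_eq_zero fun j _ => ?_
    rw [pderiv_mul, ih hr.2, pderiv_X_of_ne fun e => hr.1 (congrArg Prod.fst e).symm]
    ring

theorem pderiv_spoly {T S : Finset (Fin n)} {r c : Fin n} (hr : r ∉ T) (hc : c ∉ S) :
    pderiv (r, c) (spoly K (insert r T) (insert c S)) = spoly K T S := by
  rw [spoly_insert hr, map_sum, sum_eq_single c]
  · rw [pderiv_mul, pderiv_X_self, pderiv_spoly_zero hr, erase_insert hc]
    ring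
  · intro j _ hj
    rw [pderiv_mul, pderiv_spoly_zero hr, pderiv_X_of_ne fun e => hj (congrArg Prod.snd e)]
    ring
  · intro h
    exact absurd (mem_insert_self c S) h

theorem spoly_eval {F : Type u} [Field F] [Algebra K F] (ζ : Fin n × Fin n → F)
    (T S : Finset (Fin n)) :
    sc (∏ i ∈ T, lin univ fun j => ζ (i, j)) S = aeval ζ (spoly K T S) := by
  have h1 : ∏ i ∈ T, lin univ (fun j => ζ (i, j)) =
      map (aeval ζ : MvPolynomial (Fin n × Fin n) K →ₐ[K] F).toRingHom
        (∏ i ∈ T, lin univ fun j : Fin n => (X (i, j) : MvPolynomial (Fin n × Fin n) K)) := by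
    rw [map_prod]
    refine prod_congr rfl fun i _ => ?_
    rw [map_lin]
    refine sum_congr rfl fun j _ => ?_
    congr 2
    exact (aeval_X ζ (i, j)).symm
  rw [h1, sc_map]
  rfl

/-- The generic permanent. -/
noncomputable def per (K : Type u) [Field K] (n : ℕ) : MvPolynomial (Fin n × Fin n) K :=
  Matrix.permanent (Matrix.of fun i j : Fin n => (X (i, j) : MvPolynomial (Fin n × Fin n) K))

theorem per_eq : per K n = spoly K univ univ := permanent_eq_sc _

/-- The derivatives of an element of a power of an ideal. -/
theorem pow_der {j e : ℕ} {R : MvPolynomial (Fin n × Fin n) K} (hR : Low n R)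
    {Q : MvPolynomial (Fin n × Fin n) (Polynomial K)}
    {I : Ideal (MvPolynomial (Fin n × Fin n) (Polynomial K))}
    (h : C (Polynomial.X ^ e) * (map Polynomial.C (per K n + R) + C Polynomial.X * Q) ∈ I ^ j)
    (l : ℕ) : l < j → ∀ T S : Finset (Fin n), T.card + l = n → S.card = T.card →
    ∃ R' Q', Low T.card R' ∧ C (Polynomial.X ^ e) *
      (MvPolynomial.map Polynomial.C (spoly K T S + R') + C Polynomial.X * Q') ∈ I ^ (j - l) := by
  induction l with
  | zero =>
    intro _ T S hT hS
    have hT' : T = univ := by
      rw [← card_eq_iff_eq_univ, Fintype.card_fin]; omega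
    have hS' : S = univ := by
      rw [← card_eq_iff_eq_univ, Fintype.card_fin]; omega
    refine ⟨R, Q, ?_, ?_⟩
    · rw [hT', card_univ, Fintype.card_fin]; exact hR
    · rw [hT', hS', ← per_eq]; exact h
  | succ l ih =>
    intro hl T S hT hS
    obtain ⟨r, hr⟩ : ∃ r, r ∉ T := by
      by_contra hcon
      push Not at hcon
      have : T = univ := eq_univ_iff_forall.2 hcon
      rw [this, card_univ, Fintype.card_fin] at hT
      omega
    obtain ⟨c, hc⟩ : ∃ c, c ∉ S := by
      by_contra hcon
      push Not at hcon
      have : S = univ := eq_univ_iff_forall.2 hcon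
      rw [this, card_univ, Fintype.card_fin] at hS
      omega
    obtain ⟨R', Q', hR', hm⟩ := ih (by omega) (insert r T) (insert c S)
      (by rw [card_insert_of_notMem hr]; omega)
      (by rw [card_insert_of_notMem hr, card_insert_of_notMem hc, hS])
    rw [card_insert_of_notMem hr] at hR'
    refine ⟨pderiv (r, c) R', pderiv (r, c) Q', hR'.pderiv _, ?_⟩
    have h1 : j - l = (j - (l + 1)) + 1 := by omega
    rw [h1] at hm
    have h2 := der_pow (pderiv (r, c)) I _ hm
    rw [pderiv_C_mul, map_add, pderiv_C_mul, pderiv_map, map_add (pderiv (r, c)),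
      pderiv_spoly hr hc] at h2
    exact h2

end Pool.Agent.V7H84.Perm
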