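import Pool.Agent.V7H84.Perm.Rk

/-!
# Specialization of a parameter

`dom`: components of hypersurface sections have codimension at most one. (The proofs of `trdeg_mod`
and `dom` are those of `Pool.Agent.N769.BK.DIM`, for an arbitrary universe.)

`spec`: a form of it for subalgebras of a polynomial ring `F[ε]`: the parameter `ε` can be sent to
zero, and the transcendence degree does not drop.
-/

set_option autoImplicit false

universe u

namespace Pool.Agent.V7H84.Perm

open MvPolynomial

section dom

variable {K : Type u} [Field K]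

/-- The transcendence degree of a polynomial ring modulo a nonzero nonunit polynomial. -/
theorem trdeg_mod {s : ℕ} {p : MvPolynomial (Fin s) K} (hp0 : p ≠ 0) (hp : ¬ IsUnit p)
    {J : Ideal (MvPolynomial (Fin s) K)} (hJ : J ≤ Ideal.span {p}) :
    (s : Cardinal) ≤ Algebra.trdeg K (MvPolynomial (Fin s) K ⧸ J) + 1 := by
  obtain ⟨t, ht⟩ : ∃ t, t ∈ p.vars := by
    by_contra hn
    push Not at hn
    have h1 : p.vars = ∅ := Finset.eq_empty_of_forall_notMem hn
    rw [vars_eq_empty_iff_eq_C] at h1
    apply hp
    rw [h1]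
    refine IsUnit.map C (isUnit_iff_ne_zero.2 fun h => hp0 ?_)
    rw [h1, h, C_0]
  have ht' : p.degreeOf t ≠ 0 := mem_vars_iff_degreeOf_ne_zero.1 ht
  have h1 : Function.Injective ((Ideal.Quotient.mkₐ K J).comp
      (rename (Subtype.val : {j : Fin s // j ≠ t} → Fin s) :
        MvPolynomial {j : Fin s // j ≠ t} K →ₐ[K] MvPolynomial (Fin s) K)) := by
    rw [injective_iff_map_eq_zero]
    intro a ha
    have h2 : rename (Subtype.val : {j : Fin s // j ≠ t} → Fin s) a ∈ J :=
      Ideal.Quotient.eq_zero_iff_mem.1 ha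
    obtain ⟨g, hg⟩ := Ideal.mem_span_singleton.1 (hJ h2)
    by_contra ha0
    have h3 : rename (Subtype.val : {j : Fin s // j ≠ t} → Fin s) a ≠ 0 := fun h => ha0 <|
      rename_injective _ Subtype.val_injective (by rw [h, map_zero])
    have hg0 : g ≠ 0 := fun h => h3 (by rw [hg, h, mul_zero])
    have h4 := degreeOf_mul_eq (n := t) hp0 hg0
    rw [← hg] at h4
    have h5 : (rename (Subtype.val : {j : Fin s // j ≠ t} → Fin s) a).degreeOf t ≠ 0 := by
      omega
    rw [← mem_vars_iff_degreeOf_ne_zero] at h5
    obtain ⟨i, -, hi⟩ := mem_vars_rename _ _ h5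
    exact i.2 hi
  have h2 := _root_.trdeg_le_of_injective _ h1
  rw [MvPolynomial.trdeg_of_isDomain] at h2
  have h3 : Fintype.card {j : Fin s // j ≠ t} + 1 = s := by
    have := t.pos
    rw [Fintype.card_subtype_compl, Fintype.card_subtype_eq, Fintype.card_fin]
    omega
  calc (s : Cardinal) = ((Fintype.card {j : Fin s // j ≠ t} + 1 : ℕ) : Cardinal) := by rw [h3]
    _ = Cardinal.lift.{u} (Cardinal.mk {j : Fin s // j ≠ t}) + 1 := by
        rw [Cardinal.mk_fintype, Cardinal.lift_natCast]; push_cast; rfl
    _ ≤ _ := by gcongr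

/-- Components of hypersurface sections of a domain of finite type have codimension at most one. -/
theorem dom {A : Type u} [CommRing A] [IsDomain A] [Algebra K A] [Algebra.FiniteType K A]
    (f : A) (q : Ideal A) (hq : q ∈ (Ideal.span {f}).minimalPrimes) :
    Algebra.trdeg K A ≤ Algebra.trdeg K (A ⧸ q) + 1 := by
  obtain ⟨s, g, hg, hi⟩ := exists_integral_inj_algHom_of_fg K A
  have hnoeth : IsNoetherianRing A := Algebra.FiniteType.isNoetherianRing K A
  have hqp : q.IsPrime := hq.1.1
  have hh := Ideal.height_le_one_of_isPrincipal_of_mem_minimalPrimes (Ideal.span {f}) q hq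
  let alg : Algebra (MvPolynomial (Fin s) K) A := g.toRingHom.toAlgebra
  have hmap : ∀ x, algebraMap (MvPolynomial (Fin s) K) A x = g x := fun x => rfl
  have tow : IsScalarTower K (MvPolynomial (Fin s) K) A :=
    IsScalarTower.of_algebraMap_eq fun x => by rw [hmap, AlgHom.commutes]
  have fai : FaithfulSMul (MvPolynomial (Fin s) K) A :=
    (faithfulSMul_iff_algebraMap_injective _ _).2 hg
  have int : Algebra.IsIntegral (MvPolynomial (Fin s) K) A := ⟨hi⟩
  have ala : Algebra.IsAlgebraic (MvPolynomial (Fin s) K) A := inferInstance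
  have hA : Algebra.trdeg K A = s := by
    rw [← _root_.trdeg_add_eq K (MvPolynomial (Fin s) K) (A := A),
      _root_.trdeg_eq_zero (R := MvPolynomial (Fin s) K) (A := A), add_zero,
      MvPolynomial.trdeg_of_isDomain]
    simp
  rw [hA]
  have hinj : Function.Injective (Ideal.quotientMapₐ (R₁ := K) q g le_rfl :
      (MvPolynomial (Fin s) K ⧸ q.comap g) →ₐ[K] (A ⧸ q)) := Ideal.quotientMap_injective
  have h1 := _root_.trdeg_le_of_injective _ hinj
  refine le_trans ?_ (add_le_add_left h1 1)
  have hpr : (q.comap g).IsPrime := Ideal.comap_isPrime g q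
  by_cases h0 : q.comap g = ⊥
  · refine le_trans ?_ (self_le_add_right _ _)
    have h2 : Function.Injective (Ideal.Quotient.mkₐ K (q.comap g)) := by
      rw [injective_iff_map_eq_zero]
      intro a ha
      have h3 : a ∈ q.comap g := Ideal.Quotient.eq_zero_iff_mem.1 ha
      rwa [h0] at h3
    have h3 := _root_.trdeg_le_of_injective _ h2
    rw [MvPolynomial.trdeg_of_isDomain] at h3
    simpa using h3
  obtain ⟨p, hp, hpp⟩ := Ideal.IsPrime.exists_mem_prime_of_ne_bot hpr h0
  refine trdeg_mod hpp.ne_zero hpp.not_isUnit ?_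
  have hspan : (Ideal.span {p}).IsPrime := (Ideal.span_singleton_prime hpp.ne_zero).2 hpp
  by_contra hle
  have hlt : Ideal.span {p} < q.comap g := by
    refine lt_of_le_not_ge ((Ideal.span_singleton_le_iff_mem _).2 hp) hle
  have : q.LiesOver (q.comap g) := ⟨rfl⟩
  obtain ⟨P, hP, hPp, hPo⟩ := Ideal.exists_ideal_lt_liesOver_of_lt q hlt
  have hPb : (⊥ : Ideal A) < P := by
    rw [bot_lt_iff_ne_bot]
    intro hb
    have h2 := hPo.over
    have h3 : p ∈ P.under (MvPolynomial (Fin s) K) := by
      rw [← h2]; exact Ideal.mem_span_singleton_self p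
    rw [hb] at h3
    have h4 : g p = 0 := h3
    exact hpp.ne_zero (hg (by rw [h4, map_zero]))
  have h5 := (Ideal.height_le_iff (n := 1)).1 (by exact_mod_cast hh) P hPp hP
  have h6 : P.height ≤ 0 := by
    rw [Nat.cast_one, Order.lt_one_iff] at h5
    exact h5.le
  have h7 := (Ideal.height_le_iff (n := 0)).1 (by exact_mod_cast h6) ⊥ Ideal.isPrime_bot hPb
  exact absurd h7 not_lt_zero

end dom

section rk

variable {K : Type u} [Field K]

/-- A transcendental element raises the rank. -/
theorem rk_insert_transcendental {F L : Type u} [Field F] [Field L] [Algebra K F] [Algebra K L]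
    [Algebra F L] [IsScalarTower K F L] {y : L} (hy : Transcendental F y) {E : Set F}
    (hE : E.Finite) : rk K E + 1 ≤ rk K (insert y (algebraMap F L '' E)) := by
  obtain ⟨ι, x, hx⟩ := exists_isTranscendenceBasis' K (A := IntermediateField.adjoin K E)
  have h1 : AlgebraicIndependent K fun i => ((x i : IntermediateField.adjoin K E) : F) :=
    hx.1.map' (f := (IntermediateField.adjoin K E).val) Subtype.val_injective
  have h2 : AlgebraicIndependent F (fun _ : Unit => y) :=
    algebraicIndependent_unique_type_iff.2 hy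
  have h3 := h1.sumElim_comp h2
  set T := IntermediateField.adjoin K (insert y (algebraMap F L '' E)) with hT
  have h4 : ∀ z ∈ IntermediateField.adjoin K E, algebraMap F L z ∈ T := by
    intro z hz
    have h5 : algebraMap F L z ∈ (IntermediateField.adjoin K E).map
        (IsScalarTower.toAlgHom K F L) := ⟨z, hz, rfl⟩
    rw [IntermediateField.adjoin_map] at h5
    exact IntermediateField.adjoin.mono K _ _ (Set.subset_insert _ _) h5
  have h5 : y ∈ T := IntermediateField.subset_adjoin K _ (Set.mem_insert _ _)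
  let w : Unit ⊕ ι → T := Sum.elim (fun _ => ⟨y, h5⟩) fun i => ⟨algebraMap F L (x i), h4 _ (x i).2⟩
  have h6 : AlgebraicIndependent K w := by
    rw [← AlgHom.algebraicIndependent_iff T.val Subtype.val_injective]
    convert h3 using 1
    funext i
    rcases i with i | i <;> rfl
  have h7 := h6.lift_cardinalMk_le_trdeg
  have h8 : (insert y (algebraMap F L '' E)).Finite := (hE.image _).insert y
  have h9 : ((rk K E + 1 : ℕ) : Cardinal.{u}) ≤
      ((rk K (insert y (algebraMap F L '' E)) : ℕ) : Cardinal.{u}) := by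
    rw [rk_cast h8, Nat.cast_add, rk_cast hE, ← hx.cardinalMk_eq_trdeg]
    rw [Cardinal.mk_sum] at h7
    simpa [add_comm] using h7
  exact_mod_cast h9

end rk

section spec

variable {K : Type u} [Field K] {F : Type u} [Field F] [Algebra K F]

/-- A finitely generated subalgebra of `F[ε]` which contains `ε` has a specialization with `ε = 0` of
at least the same transcendence degree minus one. -/
theorem spec (G : Set (Polynomial F)) (hG : G.Finite)
    (hX : (Polynomial.X : Polynomial F) ∈ Algebra.adjoin K G) {E : Set F} (hE : E.Finite)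
    (hEG : ∀ e ∈ E, algebraMap (Polynomial F) (FractionRing (Polynomial F)) (Polynomial.C e) ∈
      IntermediateField.adjoin K
        (algebraMap (Polynomial F) (FractionRing (Polynomial F)) '' G)) :
    ∃ (F' : Type u) (_ : Field F') (_ : Algebra K F') (ψ : Algebra.adjoin K G →ₐ[K] F'),
      ψ ⟨Polynomial.X, hX⟩ = 0 ∧ rk K E ≤ rk K (ψ '' (Subtype.val ⁻¹' G)) := by
  set L := FractionRing (Polynomial F) with hL
  let ι : Polynomial F →ₐ[K] L := IsScalarTower.toAlgHom K (Polynomial F) L
  have hι : ∀ z, ι z = algebraMap (Polynomial F) L z := fun z => rfl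
  have hιi : Function.Injective ι := IsFractionRing.injective (Polynomial F) L
  have hGf : (ι '' G).Finite := hG.image ι
  -- the rank of `E` plus one is at most the transcendence degree of `A`
  have h1 : rk K E + 1 ≤ rk K (ι '' G) := by
    have hy : Transcendental F (algebraMap (Polynomial F) L Polynomial.X) := by
      rw [transcendental_algebraMap_iff (IsFractionRing.injective (Polynomial F) L)]
      exact Polynomial.transcendental_X F
    refine (rk_insert_transcendental (K := K) hy hE).trans (rk_mono hGf ?_)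
    intro z hz
    rcases Set.mem_insert_iff.1 hz with rfl | ⟨e, he, rfl⟩
    · have h2 : ι Polynomial.X ∈ (Algebra.adjoin K G).map ι := ⟨_, hX, rfl⟩
      rw [AlgHom.map_adjoin] at h2
      exact IntermediateField.algebra_adjoin_le_adjoin K _ h2
    · exact hEG e he
  have h2 : ((rk K (ι '' G) : ℕ) : Cardinal.{u}) = Algebra.trdeg K (Algebra.adjoin K G) := by
    rw [rk_cast hGf, trdeg_adjoin_eq, ← AlgHom.map_adjoin]
    exact ((Algebra.adjoin K G).equivMapOfInjective ι hιi).trdeg_eq.symm
  have hfin : Algebra.FiniteType K (Algebra.adjoin K G) :=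
    (Subalgebra.fg_iff_finiteType _).1 (Subalgebra.fg_def.2 ⟨G, hG, rfl⟩)
  obtain ⟨x, hx⟩ : ∃ x : Algebra.adjoin K G, x = ⟨Polynomial.X, hX⟩ := ⟨_, rfl⟩
  have hxu : ¬ IsUnit x := fun hu => by
    have h3 : IsUnit (Polynomial.X : Polynomial F) := by
      have := hu.map (Algebra.adjoin K G).val
      rwa [hx] at this
    exact Polynomial.not_isUnit_X h3
  obtain ⟨⟨q, hq⟩⟩ := (Ideal.span {x}).nonempty_minimalPrimes (by
    rwa [Ne, Ideal.span_singleton_eq_top])
  have hqp : q.IsPrime := hq.1.1
  have h3 := dom (K := K) x q hq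
  let B : Type u := Algebra.adjoin K G ⧸ q
  have hBd : IsDomain B := Ideal.Quotient.isDomain q
  let j : B →ₐ[K] FractionRing B := IsScalarTower.toAlgHom K B (FractionRing B)
  have hj : Function.Injective j := IsFractionRing.injective B (FractionRing B)
  let ψ : Algebra.adjoin K G →ₐ[K] FractionRing B := j.comp (Ideal.Quotient.mkₐ K q)
  refine ⟨FractionRing B, inferInstance, inferInstance, ψ, ?_, ?_⟩
  · rw [← hx]
    have h4 : x ∈ q := hq.1.2 (Ideal.mem_span_singleton_self x)
    have h5 : (Ideal.Quotient.mkₐ K q) x = 0 := Ideal.Quotient.eq_zero_iff_mem.2 h4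
    show j ((Ideal.Quotient.mkₐ K q) x) = 0
    rw [h5, map_zero]
  · set G' : Set (Algebra.adjoin K G) := Subtype.val ⁻¹' G with hG'
    have hG'f : G'.Finite := hG.preimage (Subtype.val_injective.injOn)
    have htop : Algebra.adjoin K G' = ⊤ := Algebra.adjoin_adjoin_coe_preimage
    have h5 : ∀ z : B, j z ∈ Algebra.adjoin K (ψ '' G') := by
      intro z
      obtain ⟨a, rfl⟩ := Ideal.Quotient.mk_surjective z
      rw [← AlgHom.map_adjoin, htop]
      exact ⟨a, trivial, rfl⟩
    let jj : B →ₐ[K] Algebra.adjoin K (ψ '' G') := j.codRestrict (Algebra.adjoin K (ψ '' G')) h5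
    have hjj : Function.Injective jj := (AlgHom.injective_codRestrict _ _ _).2 hj
    have h6 : Algebra.trdeg K B ≤ Algebra.trdeg K (Algebra.adjoin K (ψ '' G')) :=
      _root_.trdeg_le_of_injective jj hjj
    rw [← trdeg_adjoin_eq, ← rk_cast (hG'f.image ψ)] at h6
    have h7 : ((rk K E + 1 : ℕ) : Cardinal.{u}) ≤ ((rk K (ψ '' G') + 1 : ℕ) : Cardinal.{u}) := by
      calc ((rk K E + 1 : ℕ) : Cardinal.{u}) ≤ ((rk K (ι '' G) : ℕ) : Cardinal.{u}) := by
            exact_mod_cast h1
        _ ≤ _ := by
            rw [h2]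
            refine h3.trans ?_
            push_cast
            gcongr
    have h8 : rk K E + 1 ≤ rk K (ψ '' G') + 1 := by exact_mod_cast h7
    omega

end spec

end Pool.Agent.V7H84.Perm
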