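import Pool.Agent.V7H84.Perm.Count
import Pool.Agent.V7H84.Perm.Tool

/-!
# The codimension of the varieties of vanishing subpermanents
-/

set_option autoImplicit false
set_option linter.unusedSectionVars false

universe u

namespace Pool.Agent.V7H84.Perm

open MvPolynomial Finset

variable {K : Type u} [Field K] {σ : Type*} [DecidableEq σ] {ι : Type*} [DecidableEq ι]

theorem lin_insert {R : Type*} [CommRing R] {c : σ} {s : Finset σ} (hc : c ∉ s) (x : σ → R) :
    lin (insert c s) x = lin s x + C (x c) * X c := by
  unfold lin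
  rw [sum_insert hc, add_comm]

theorem lin_congr {R : Type*} [CommRing R] {s : Finset σ} {x y : σ → R}
    (h : ∀ j ∈ s, x j = y j) : lin s x = lin s y :=
  sum_congr rfl fun j hj => by rw [h j hj]

/-- The main theorem: the transcendence degree of a point at which all products of
`I.card - k` rows vanish. -/
theorem main (h2 : (2 : K) ≠ 0) (N : ℕ) : ∀ {F : Type u} [Field F] [Algebra K F]
    (x : ι → σ → F) (I : Finset ι) (s : Finset σ) (k : ℕ), s.card = N → I.card ≤ s.card →
    (1 ≤ k ∨ I.card < s.card) →
    (∀ T ⊆ I, I.card ≤ T.card + k → ∏ i ∈ T, lin s (x i) ∈ Jsq σ F) →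
    rk K (ent x I s) + (k + 1) * s.card ≤ I.card * s.card := by
  induction N with
  | zero =>
    intro F _ _ x I s k hs _ _ _
    rw [hs]
    have h0 : rk K (ent x I s) = 0 := rk_eq_zero fun z hz => by
      obtain ⟨⟨i, j⟩, hp, -⟩ := hz
      rw [card_eq_zero] at hs
      rw [hs] at hp
      simp at hp
    rw [h0]
    simp
  | succ N ih =>
    intro F _ _ x I s k hs hIs hk hv
    by_cases hz : ∀ i ∈ I, ∀ j ∈ s, x i j = 0
    · have h0 : rk K (ent x I s) = 0 := rk_eq_zero fun z hz' => by
        obtain ⟨⟨i, j⟩, hp, rfl⟩ := hz'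
        rw [mem_coe, mem_product] at hp
        exact hz i hp.1 j hp.2
      have h1 : k + 1 ≤ I.card := by
        by_contra hcon
        exact one_notMem (hv ∅ (empty_subset _) (by rw [card_empty]; omega))
      rw [h0, zero_add]
      exact Nat.mul_le_mul_right _ h1
    push Not at hz
    obtain ⟨r, hr, c, hc, hrc⟩ := hz
    obtain ⟨I', hI'⟩ : ∃ I', I' = I.erase r := ⟨_, rfl⟩
    obtain ⟨s', hs'⟩ : ∃ s', s' = s.erase c := ⟨_, rfl⟩
    have hrI' : r ∉ I' := by rw [hI']; exact notMem_erase r I
    have hcs' : c ∉ s' := by rw [hs']; exact notMem_erase c s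
    have hI : I = insert r I' := by rw [hI', insert_erase hr]
    have hse : s = insert c s' := by rw [hs', insert_erase hc]
    have hIc : I.card = I'.card + 1 := by rw [hI, card_insert_of_notMem hrI']
    have hsc : s.card = s'.card + 1 := by rw [hse, card_insert_of_notMem hcs']
    -- the degenerating point
    let xp : ι → σ → Polynomial F := fun i j =>
      if i ∈ I' ∧ j ∈ s' then Polynomial.X * Polynomial.C (x i j) else 0
    let ap : ι → Polynomial F := fun i => if i ∈ I' then Polynomial.C (x i c) else 0
    let ρp : σ → Polynomial F := fun j => if j ∈ s' then Polynomial.C (x r j / x r c) else 0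
    let w : σ → Polynomial F := fun j => if j = c then 1 else Polynomial.X
    have row : ∀ i ∈ I', lin s (fun j => w j * Polynomial.C (x i j)) =
        lin s' (xp i) + C (ap i) * X c := by
      intro i hi
      rw [hse, lin_insert hcs']
      congr 1
      · refine lin_congr fun j hj => ?_
        have : j ≠ c := fun e => hcs' (e ▸ hj)
        simp only [w, xp, if_neg this, if_pos (And.intro hi hj)]
      · simp only [w, ap, if_pos hi, if_true, one_mul]
    have rowr : lin s (fun j => w j * Polynomial.C (x r j)) =
        C (Polynomial.C (x r c)) * (X c + C Polynomial.X * lin s' ρp) := by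
      rw [hse, lin_insert hcs']
      have h1 : lin s' (fun j => w j * Polynomial.C (x r j)) =
          C (Polynomial.C (x r c)) * (C Polynomial.X * lin s' ρp) := by
        unfold lin
        rw [mul_sum, mul_sum]
        refine sum_congr rfl fun j hj => ?_
        have : j ≠ c := fun e => hcs' (e ▸ hj)
        simp only [w, ρp, if_neg this, if_pos hj]
        rw [← mul_assoc, ← mul_assoc, ← map_mul, ← map_mul]
        congr 2
        have h3 : Polynomial.C (x r j) = Polynomial.C (x r c) * Polynomial.C (x r j / x r c) := by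
          rw [← map_mul]; congr 1; field_simp
        rw [h3]; ring
      rw [h1]
      simp only [w, if_true, one_mul]
      ring
    have hvB : ∀ T ⊆ I, I.card ≤ T.card + k →
        ∏ i ∈ T, lin s (fun j => w j * Polynomial.C (x i j)) ∈ Jsq σ (Polynomial F) := by
      intro T hT hTk S
      have h1 := sc_prod_scale s (fun i j => Polynomial.C (x i j)) w T S
      rw [h1]
      have h3 : ∏ i ∈ T, lin s (fun j => Polynomial.C (x i j)) =
          map Polynomial.C (∏ i ∈ T, lin s (x i)) := by
        rw [map_prod]
        exact prod_congr rfl fun i _ => (map_lin _ _ _).symm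
      rw [h3, map_mem Polynomial.C (hv T hT hTk) S, mul_zero]
    have hII' : I' ⊆ I := by rw [hI]; exact subset_insert _ _
    have FB1 : ∀ T ⊆ I', I.card ≤ T.card + k →
        ∏ i ∈ T, (lin s' (xp i) + C (ap i) * X c) ∈ Jsq σ (Polynomial F) := by
      intro T hT hTk
      have h1 := hvB T (hT.trans hII') hTk
      rwa [prod_congr rfl fun i hi => row i (hT hi)] at h1
    have FB2 : ∀ T ⊆ I', I.card ≤ T.card + 1 + k → (X c + C Polynomial.X * lin s' ρp) *
        ∏ i ∈ T, (lin s' (xp i) + C (ap i) * X c) ∈ Jsq σ (Polynomial F) := by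
      intro T hT hTk
      have hrT : r ∉ T := fun h => hrI' (hT h)
      have h1 := hvB (insert r T) (by rw [hI]; exact insert_subset_insert r hT)
        (by rw [card_insert_of_notMem hrT]; exact hTk)
      rw [prod_insert hrT, rowr, prod_congr rfl fun i hi => row i (hT hi), mul_assoc] at h1
      exact mem_of_C_mul (by simpa using hrc) h1
    have hu : ∀ i, Fr c (lin s' (xp i)) := fun i => Fr.lin hcs' _
    have hρ : Fr c (lin s' ρp) := Fr.lin hcs' _
    have B1 : ∀ T ⊆ I', I'.card ≤ T.card + k →
        PP (fun i => lin s' (xp i)) T + C Polynomial.X *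
          (lin s' ρp * QQ (fun i => lin s' (xp i)) ap T) ∈ Jsq σ (Polynomial F) ∧
        lin s' ρp * (lin s' ρp * QQ (fun i => lin s' (xp i)) ap T) ∈ Jsq σ (Polynomial F) :=
      fun T hT hTk => rel_row hu Polynomial.X_ne_zero hρ (FB2 T hT (by omega))
    have B3 : ∀ T ⊆ I', I'.card + 1 ≤ T.card + k →
        lin s' ρp * EE (fun i => lin s' (xp i)) ap T ∈ Jsq σ (Polynomial F) := by
      intro T hT hTk
      refine rel_third Polynomial.X_ne_zero (fun i hi => (B1 _ ((erase_subset i T).trans hT)
        ?_).1) (rel_prod hu (FB1 T hT (by omega))).2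
      rw [card_erase_of_mem hi]; omega
    -- the algebra
    obtain ⟨G, hG⟩ : ∃ G : Set (Polynomial F), G = insert (Polynomial.C (x r c))
      (insert Polynomial.X (ρp '' (s' : Set σ) ∪ ap '' (I' : Set ι) ∪ ent xp I' s')) := ⟨_, rfl⟩
    have hGf : G.Finite := by
      rw [hG]
      exact ((((s'.finite_toSet.image ρp).union (I'.finite_toSet.image ap)).union
        ((Finset.finite_toSet _).image _)).insert _).insert _
    have g1 : Polynomial.C (x r c) ∈ G := by rw [hG]; exact Set.mem_insert _ _
    have g2 : (Polynomial.X : Polynomial F) ∈ G := by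
      rw [hG]; exact Set.mem_insert_of_mem _ (Set.mem_insert _ _)
    have g3 : ∀ j ∈ s', ρp j ∈ G := fun j hj => by
      rw [hG]
      exact Set.mem_insert_of_mem _ (Set.mem_insert_of_mem _ (Or.inl (Or.inl ⟨j, hj, rfl⟩)))
    have g4 : ∀ i ∈ I', ap i ∈ G := fun i hi => by
      rw [hG]
      exact Set.mem_insert_of_mem _ (Set.mem_insert_of_mem _ (Or.inl (Or.inr ⟨i, hi, rfl⟩)))
    have g5 : ∀ i ∈ I', ∀ j ∈ s', xp i j ∈ G := fun i hi j hj => by
      rw [hG]
      exact Set.mem_insert_of_mem _ (Set.mem_insert_of_mem _ (Or.inr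
        ⟨(i, j), by simp [hi, hj], rfl⟩))
    have hX : (Polynomial.X : Polynomial F) ∈ Algebra.adjoin K G := Algebra.subset_adjoin g2
    have m3 : ∀ j, ρp j ∈ Algebra.adjoin K G := fun j => by
      by_cases hj : j ∈ s'
      · exact Algebra.subset_adjoin (g3 j hj)
      · simp only [ρp, if_neg hj]; exact zero_mem _
    have m4 : ∀ i, ap i ∈ Algebra.adjoin K G := fun i => by
      by_cases hi : i ∈ I'
      · exact Algebra.subset_adjoin (g4 i hi)
      · simp only [ap, if_neg hi]; exact zero_mem _
    have m5 : ∀ i j, xp i j ∈ Algebra.adjoin K G := fun i j => by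
      by_cases hij : i ∈ I' ∧ j ∈ s'
      · exact Algebra.subset_adjoin (g5 i hij.1 j hij.2)
      · simp only [xp, if_neg hij]; exact zero_mem _
    have hEf := ent_finite x I s
    obtain ⟨F', _, _, ψ, hψ0, hψ⟩ := spec (K := K) G hGf hX hEf (by
      intro e he
      obtain ⟨⟨i, j⟩, hp, rfl⟩ := he
      rw [mem_coe, mem_product] at hp
      obtain ⟨hi, hj⟩ := hp
      have hmem : ∀ g ∈ G, algebraMap (Polynomial F) (FractionRing (Polynomial F)) g ∈
          IntermediateField.adjoin K
            (algebraMap (Polynomial F) (FractionRing (Polynomial F)) '' G) := fun g hg =>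
        IntermediateField.subset_adjoin K _ ⟨g, hg, rfl⟩
      show algebraMap (Polynomial F) (FractionRing (Polynomial F)) (Polynomial.C (x i j)) ∈ _
      by_cases hir : i = r
      · by_cases hjc : j = c
        · rw [hir, hjc]; exact hmem _ g1
        · have hj' : j ∈ s' := by rw [hs']; exact mem_erase.2 ⟨hjc, hj⟩
          have h3 : Polynomial.C (x i j) = Polynomial.C (x r c) * ρp j := by
            simp only [ρp, if_pos hj']
            rw [hir, ← map_mul]; congr 1; field_simp
          rw [h3, map_mul]
          exact mul_mem (hmem _ g1) (hmem _ (g3 j hj'))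
      · have hi' : i ∈ I' := by rw [hI']; exact mem_erase.2 ⟨hir, hi⟩
        by_cases hjc : j = c
        · have h3 : Polynomial.C (x i j) = ap i := by
            simp only [ap, if_pos hi']; rw [hjc]
          rw [h3]; exact hmem _ (g4 i hi')
        · have hj' : j ∈ s' := by rw [hs']; exact mem_erase.2 ⟨hjc, hj⟩
          have h3 : algebraMap (Polynomial F) (FractionRing (Polynomial F))
              (Polynomial.C (x i j)) =
              algebraMap (Polynomial F) (FractionRing (Polynomial F)) (xp i j) /
              algebraMap (Polynomial F) (FractionRing (Polynomial F)) Polynomial.X := by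
            have h4 : algebraMap (Polynomial F) (FractionRing (Polynomial F)) Polynomial.X ≠ 0 := by
              rw [Ne, IsFractionRing.to_map_eq_zero_iff]
              exact Polynomial.X_ne_zero
            rw [eq_div_iff h4, ← map_mul]
            simp only [xp, if_pos (And.intro hi' hj')]
            rw [mul_comm]
          rw [h3]
          exact div_mem (hmem _ (g5 i hi' j hj')) (hmem _ g2))
    -- the elements of the algebra
    let A := Algebra.adjoin K G
    let xA : ι → σ → A := fun i j => ⟨xp i j, m5 i j⟩
    let aA : ι → A := fun i => ⟨ap i, m4 i⟩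
    let ρA : σ → A := fun j => ⟨ρp j, m3 j⟩
    let εA : A := ⟨Polynomial.X, hX⟩
    have hval : Function.Injective (algebraMap A (Polynomial F)) := Subtype.val_injective
    have mlin : ∀ i, map (algebraMap A (Polynomial F)) (lin s' (xA i)) = lin s' (xp i) :=
      fun i => map_lin _ _ _
    have mρ : map (algebraMap A (Polynomial F)) (lin s' ρA) = lin s' ρp := map_lin _ _ _
    have A1 : ∀ T ⊆ I', I'.card ≤ T.card + k →
        PP (fun i => lin s' (xA i)) T + C εA * (lin s' ρA * QQ (fun i => lin s' (xA i)) aA T) ∈
          Jsq σ A ∧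
        lin s' ρA * (lin s' ρA * QQ (fun i => lin s' (xA i)) aA T) ∈ Jsq σ A := by
      intro T hT hTk
      obtain ⟨h1, h3⟩ := B1 T hT hTk
      constructor
      · refine mem_of_map _ hval ?_
        rw [map_add, map_mul, map_mul, map_C, map_PP, map_QQ, mρ]
        simp only [mlin]
        exact h1
      · refine mem_of_map _ hval ?_
        rw [map_mul, map_mul, map_QQ, mρ]
        simp only [mlin]
        exact h3
    have A3 : ∀ T ⊆ I', I'.card + 1 ≤ T.card + k →
        lin s' ρA * EE (fun i => lin s' (xA i)) aA T ∈ Jsq σ A := by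
      intro T hT hTk
      refine mem_of_map _ hval ?_
      rw [map_mul, map_EE, mρ]
      simp only [mlin]
      exact B3 T hT hTk
    -- the limit
    have nlin : ∀ i, map (ψ : A →+* F') (lin s' (xA i)) = lin s' (fun j => ψ (xA i j)) :=
      fun i => map_lin _ _ _
    have nρ : map (ψ : A →+* F') (lin s' ρA) = lin s' (fun j => ψ (ρA j)) := map_lin _ _ _
    have h2F : (2 : F') ≠ 0 := by
      have : (2 : F') = algebraMap K F' 2 := by rw [map_ofNat]
      rw [this, Ne, map_eq_zero]
      exact h2
    have C1 : ∀ T ⊆ I', I'.card ≤ T.card + k →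
        PP (fun i => lin s' (fun j => ψ (xA i j))) T ∈ Jsq σ F' := by
      intro T hT hTk
      have h1 := map_mem (ψ : A →+* F') (A1 T hT hTk).1
      rw [map_add, map_mul, map_C, map_PP] at h1
      have h3 : (ψ : A →+* F') εA = 0 := hψ0
      rw [h3, C_0, zero_mul, add_zero] at h1
      simp only [nlin] at h1
      exact h1
    have C2 : ∀ T ⊆ I', I'.card ≤ T.card + k →
        lin s' (fun j => ψ (ρA j)) * (lin s' (fun j => ψ (ρA j)) *
          QQ (fun i => lin s' (fun j => ψ (xA i j))) (fun i => ψ (aA i)) T) ∈ Jsq σ F' := by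
      intro T hT hTk
      have h1 := map_mem (ψ : A →+* F') (A1 T hT hTk).2
      rw [map_mul, map_mul, map_QQ, nρ] at h1
      simp only [nlin] at h1
      exact h1
    have C3 : ∀ T ⊆ I', I'.card + 1 ≤ T.card + k →
        lin s' (fun j => ψ (ρA j)) *
          EE (fun i => lin s' (fun j => ψ (xA i j))) (fun i => ψ (aA i)) T ∈ Jsq σ F' := by
      intro T hT hTk
      have h1 := map_mem (ψ : A →+* F') (A3 T hT hTk)
      rw [map_mul, map_EE, nρ] at h1
      simp only [nlin] at h1
      exact h1
    have hs'N : s'.card = N := by omega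
    have hIs' : I'.card ≤ s'.card := by omega
    have hk' : 1 ≤ k ∨ I'.card < s'.card := by omega
    have fin := count (K := K) h2F hIs' hk' C1 C2 C3
      (ih (fun i j => ψ (xA i j)) I' s' k hs'N hIs' hk' C1)
      (fun h => ih (fun i j => ψ (xA i j)) I' s' (k + 1) hs'N hIs' (Or.inl (by omega)) h)
      (ψ ⟨Polynomial.C (x r c), Algebra.subset_adjoin g1⟩)
    rw [hIc, hsc]
    refine le_trans (Nat.add_le_add_right (hψ.trans (rk_mono ?_ ?_)) _) fin
    · exact (((ent_finite _ _ _).union (s'.finite_toSet.image _)).union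
        (I'.finite_toSet.image _)).insert _
    · rintro _ ⟨⟨z, hz⟩, hzG, rfl⟩
      have hzG' : z ∈ G := hzG
      rw [hG] at hzG'
      rcases hzG' with rfl | rfl | (⟨j, hj, rfl⟩ | ⟨i, hi, rfl⟩) | ⟨⟨i, j⟩, hp, rfl⟩
      · exact IntermediateField.subset_adjoin K _ (Set.mem_insert _ _)
      · rw [hψ0]; exact zero_mem _
      · exact IntermediateField.subset_adjoin K _
          (Set.mem_insert_of_mem _ (Or.inl (Or.inr ⟨j, hj, rfl⟩)))
      · exact IntermediateField.subset_adjoin K _
          (Set.mem_insert_of_mem _ (Or.inr ⟨i, hi, rfl⟩))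
      · exact IntermediateField.subset_adjoin K _
          (Set.mem_insert_of_mem _ (Or.inl (Or.inl ⟨(i, j), hp, rfl⟩)))

end Pool.Agent.V7H84.Perm
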