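import Pool.Agent.V7H84.Perm.SubPerm
import Pool.Agent.V7H84.Perm.Dim
import Pool.Agent.V7H84.Perm.Main

/-!
# The dimension of the varieties of vanishing subpermanents
-/

set_option autoImplicit false
set_option linter.unusedSectionVars false

universe u

namespace Pool.Agent.V7H84.Perm

open MvPolynomial Finset

/-- The ideal generated by all `r × r` subpermanents of the generic `m × N` matrix. -/
noncomputable def permIdeal (K : Type u) [Field K] (r m N : ℕ) : Ideal (MvPolynomial (Fin m × Fin N) K) :=
  Ideal.span {x | ∃ (e : Fin r ↪o Fin m) (f : Fin r ↪o Fin N),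
    x = Matrix.permanent (Matrix.of fun a b => (X (e a, f b) : MvPolynomial (Fin m × Fin N) K))}

variable {K : Type u} [Field K]

/-- An upper bound for the Krull dimension through the quotients by prime ideals. -/
theorem ringKrullDim_le_of_quotients {A : Type u} [CommRing A] (d : ℕ)
    (h : ∀ p : Ideal A, p.IsPrime → ringKrullDim (A ⧸ p) ≤ d) : ringKrullDim A ≤ d := by
  unfold ringKrullDim
  rw [Order.krullDim_eq_iSup_coheight]
  refine iSup_le fun p => ?_
  rw [Order.coheight_eq_krullDim_Ici]
  have h1 := h p.asIdeal p.2
  rw [ringKrullDim_quotient] at h1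
  have h2 : Set.Ici p = PrimeSpectrum.zeroLocus (R := A) p.asIdeal := by
    ext x; rfl
  rw [h2]
  exact h1

/-- The transcendence degree of a domain generated by a matrix with vanishing subpermanents. -/
theorem rk_le_of_perm (h2 : (2 : K) ≠ 0) {r m N : ℕ} (hr : 1 ≤ r) (hrm : r ≤ m) (hmN : m ≤ N)
    (hne : ¬ (r = m ∧ m = N)) {F : Type u} [Field F] [Algebra K F] (x : Fin m → Fin N → F)
    (h : ∀ (e : Fin r ↪o Fin m) (f : Fin r ↪o Fin N),
      Matrix.permanent (Matrix.of fun a b => x (e a) (f b)) = 0) :
    rk K (Set.range fun p : Fin m × Fin N => x p.1 p.2) ≤ (r - 1) * N := by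
  classical
  -- the products of exactly `r` rows
  have h1 : ∀ T : Finset (Fin m), T.card = r → ∏ i ∈ T, lin univ (x i) ∈ Jsq (Fin N) F := by
    intro T hT S
    by_contra hS0
    have hS : S.card = r := by rw [(sc_prod_card _ _ _ _ hS0).2, hT]
    have h3 := sc_prod_eq_permanent x (T.orderEmbOfFin hT) (S.orderEmbOfFin hS)
      (S.orderEmbOfFin hS).injective univ fun _ => mem_univ _
    rw [h] at h3
    have h4 : univ.image (S.orderEmbOfFin hS) = S := by
      apply Finset.coe_injective
      rw [coe_image, coe_univ, Set.image_univ]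
      exact range_orderEmbOfFin S hS
    have h5 : ∏ a, lin univ (x (T.orderEmbOfFin hT a)) = ∏ i ∈ T, lin univ (x i) := by
      have h6 : T = univ.image (T.orderEmbOfFin hT) := by
        apply Finset.coe_injective
        rw [coe_image, coe_univ, Set.image_univ]
        exact (range_orderEmbOfFin T hT).symm
      conv_rhs => rw [h6]
      rw [prod_image]
      intro a _ b _ hab
      exact (T.orderEmbOfFin hT).injective hab
    rw [h4, h5] at h3
    exact hS0 h3
  have h3 := main h2 N x univ univ (m - r) (by simp) (by simpa using hmN)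
    (by
      rw [card_univ, card_univ, Fintype.card_fin, Fintype.card_fin]
      omega) (by
      intro T _ hT
      rw [card_univ, Fintype.card_fin] at hT
      obtain ⟨U, hU, hUc⟩ := exists_subset_card_eq (show r ≤ T.card by omega)
      rw [← prod_sdiff hU]
      exact (Jsq (Fin N) F).mul_mem_left _ (h1 U hUc))
  rw [card_univ, card_univ, Fintype.card_fin, Fintype.card_fin] at h3
  have h4 : rk K (Set.range fun p : Fin m × Fin N => x p.1 p.2) ≤ rk K (ent x univ univ) := by
    refine rk_subset (ent_finite _ _ _) ?_
    rintro _ ⟨⟨i, j⟩, rfl⟩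
    exact mem_ent (mem_univ i) (mem_univ j)
  have h5 : m * N = (r - 1) * N + (m - r + 1) * N := by
    rw [← add_mul]; congr 1; omega
  omega

/-- The Krull dimension of the ring of `m × N` matrices with vanishing `r × r` subpermanents. -/
theorem ringKrullDim_permIdeal (h2 : (2 : K) ≠ 0) {r m N : ℕ} (hr : 1 ≤ r) (hrm : r ≤ m)
    (hmN : m ≤ N) (hne : ¬ (r = m ∧ m = N)) :
    ringKrullDim (MvPolynomial (Fin m × Fin N) K ⧸ permIdeal K r m N) = ((r - 1) * N : ℕ) := by
  classical
  apply le_antisymm
  · refine ringKrullDim_le_of_quotients _ fun p hp => ?_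
    let A : Type u := MvPolynomial (Fin m × Fin N) K ⧸ permIdeal K r m N
    let A1 : Type u := A ⧸ p
    have hA1 : IsDomain A1 := Ideal.Quotient.isDomain p
    let Θ : MvPolynomial (Fin m × Fin N) K →ₐ[K] A1 :=
      (Ideal.Quotient.mkₐ K p).comp (Ideal.Quotient.mkₐ K (permIdeal K r m N))
    have hΘs : Function.Surjective Θ :=
      Ideal.Quotient.mk_surjective.comp Ideal.Quotient.mk_surjective
    have hft : Algebra.FiniteType K A1 := Algebra.FiniteType.of_surjective Θ hΘs
    obtain ⟨d, hd1, hd2⟩ := exists_ringKrullDim_eq_trdeg K A1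
    show ringKrullDim A1 ≤ _
    rw [hd1]
    let F := FractionRing A1
    let ι1 : A1 →ₐ[K] F := IsScalarTower.toAlgHom K A1 F
    have hι1 : Function.Injective ι1 := IsFractionRing.injective A1 F
    let Φ : MvPolynomial (Fin m × Fin N) K →ₐ[K] F := ι1.comp Θ
    have hΦ : ∀ z ∈ permIdeal K r m N, Φ z = 0 := fun z hz => by
      have h5 : (Ideal.Quotient.mkₐ K (permIdeal K r m N)) z = 0 :=
        Ideal.Quotient.eq_zero_iff_mem.2 hz
      show ι1 ((Ideal.Quotient.mkₐ K p) ((Ideal.Quotient.mkₐ K (permIdeal K r m N)) z)) = 0
      rw [h5, map_zero, map_zero]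
    let x : Fin m → Fin N → F := fun i j => Φ (X (i, j))
    have hx : ∀ (e : Fin r ↪o Fin m) (f : Fin r ↪o Fin N),
        Matrix.permanent (Matrix.of fun a b => x (e a) (f b)) = 0 := by
      intro e f
      have h6 := hΦ _ (Ideal.subset_span ⟨e, f, rfl⟩)
      rw [← h6, Matrix.permanent, Matrix.permanent, map_sum]
      refine sum_congr rfl fun π _ => ?_
      rw [map_prod]
      rfl
    have h7 := rk_le_of_perm h2 hr hrm hmN hne x hx
    have hmem : ∀ z, Φ z ∈ IntermediateField.adjoin K
        (Set.range fun p : Fin m × Fin N => x p.1 p.2) := by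
      intro z
      induction z using MvPolynomial.induction_on with
      | C a =>
        have h5 : Φ (C a) = algebraMap K F a := Φ.commutes a
        rw [h5]
        exact IntermediateField.algebraMap_mem _ a
      | add r s hr hs => rw [map_add]; exact add_mem hr hs
      | mul_X r i hr =>
        rw [map_mul]
        exact mul_mem hr (IntermediateField.subset_adjoin K _ ⟨i, rfl⟩)
    have h8 : Algebra.trdeg K A1 ≤ Algebra.trdeg K (IntermediateField.adjoin K
        (Set.range fun p : Fin m × Fin N => x p.1 p.2)) := by
      let j1 : A1 →ₐ[K] IntermediateField.adjoin K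
          (Set.range fun p : Fin m × Fin N => x p.1 p.2) :=
        ι1.codRestrict (IntermediateField.adjoin K
          (Set.range fun p : Fin m × Fin N => x p.1 p.2)).toSubalgebra (by
          intro z
          obtain ⟨a, rfl⟩ := hΘs z
          exact hmem a)
      have hj1 : Function.Injective j1 := (AlgHom.injective_codRestrict _ _ _).2 hι1
      exact _root_.trdeg_le_of_injective j1 hj1
    rw [← rk_cast (Set.finite_range _), hd2] at h8
    have h9 : d ≤ (r - 1) * N := by
      have : d ≤ rk K (Set.range fun p : Fin m × Fin N => x p.1 p.2) := by exact_mod_cast h8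
      omega
    exact_mod_cast h9
  · -- the matrices whose last `m - r + 1` rows are zero
    let φ : MvPolynomial (Fin m × Fin N) K →ₐ[K] MvPolynomial (Fin (r - 1) × Fin N) K :=
      aeval fun p => if h : p.1.val < r - 1 then X (⟨p.1.val, h⟩, p.2) else 0
    have hφX : ∀ (i : Fin m) (j : Fin N), φ (X (i, j)) =
        if h : i.val < r - 1 then X (⟨i.val, h⟩, j) else 0 := fun i j => aeval_X _ _
    have hφs : Function.Surjective φ := by
      intro z
      induction z using MvPolynomial.induction_on with
      | C a => exact ⟨C a, φ.commutes a⟩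
      | add p q hp hq =>
        obtain ⟨a, rfl⟩ := hp
        obtain ⟨b, rfl⟩ := hq
        exact ⟨a + b, map_add _ _ _⟩
      | mul_X p i hp =>
        obtain ⟨a, rfl⟩ := hp
        refine ⟨a * X (⟨i.1.val, by omega⟩, i.2), ?_⟩
        rw [map_mul, hφX, dif_pos i.1.2]
    have hker : ∀ z ∈ permIdeal K r m N, φ z = 0 := by
      have : permIdeal K r m N ≤ RingHom.ker φ := by
        refine Ideal.span_le.2 ?_
        rintro _ ⟨e, f, rfl⟩
        show φ _ = 0
        rw [Matrix.permanent, map_sum]
        refine sum_eq_zero fun π _ => ?_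
        rw [map_prod]
        let last : Fin r := ⟨r - 1, by omega⟩
        refine prod_eq_zero (mem_univ (π.symm last)) ?_
        show φ (X (e (π (π.symm last)), f (π.symm last))) = 0
        rw [Equiv.apply_symm_apply, hφX, dif_neg]
        have h6 : ∀ a : Fin r, a.val ≤ (e a).val := by
          intro a
          have h7 : ∀ k : ℕ, ∀ hk : k < r, k ≤ (e ⟨k, hk⟩).val := by
            intro k
            induction k with
            | zero => intro _; exact Nat.zero_le _
            | succ k ih =>
              intro hk
              have h8 := ih (by omega)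
              have h9 : e ⟨k, by omega⟩ < e ⟨k + 1, hk⟩ :=
                e.strictMono (by rw [Fin.lt_def]; simp)
              rw [Fin.lt_def] at h9
              omega
          exact h7 a.val a.2
        have h7 := h6 last
        show ¬ (e last).val < r - 1
        have : last.val = r - 1 := rfl
        omega
      exact fun z hz => this hz
    let ψ : (MvPolynomial (Fin m × Fin N) K ⧸ permIdeal K r m N) →ₐ[K]
        MvPolynomial (Fin (r - 1) × Fin N) K := Ideal.Quotient.liftₐ _ φ hker
    have hψ : Function.Surjective ψ := fun z => by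
      obtain ⟨a, ha⟩ := hφs z
      exact ⟨Ideal.Quotient.mk _ a, ha⟩
    have h5 := ringKrullDim_le_of_surjective
      (ψ : (MvPolynomial (Fin m × Fin N) K ⧸ permIdeal K r m N) →+*
        MvPolynomial (Fin (r - 1) × Fin N) K) hψ
    rw [MvPolynomial.ringKrullDim_of_isNoetherianRing, ringKrullDim_eq_zero_of_field] at h5
    simpa using h5

end Pool.Agent.V7H84.Perm
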