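import Pool.Agent.V7H84.Perm.Der
import Pool.Agent.V7H84.Perm.Dim
import Pool.Agent.V7H84.Perm.Main

/-!
# The permanent in powers of ideals
-/

set_option autoImplicit false
set_option linter.unusedSectionVars false

universe u

namespace Pool.Agent.V7H84.Perm

open MvPolynomial Finset

variable {n : ℕ} {K : Type u} [Field K]

/-- The final step: a point at which all subpermanents of some size vanish. -/
theorem final_step (h2 : (2 : K) ≠ 0) {F : Type u} [Field F] [Algebra K F]
    (ξ : Fin n × Fin n → F) {j : ℕ} (hj : 2 ≤ j)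
    (h : ∀ T S : Finset (Fin n), S.card = T.card → n < T.card + j →
      ∃ R' : MvPolynomial (Fin n × Fin n) K, Low T.card R' ∧ aeval ξ (spoly K T S + R') = 0) :
    rk K (Set.range ξ) + j * n ≤ n * n := by
  obtain ⟨F', _, _, ζ, hζ, hv⟩ := homog (K := K) ξ
  have h1 := main h2 n (fun i j : Fin n => ζ (i, j)) univ univ (j - 1) (by simp) (by simp)
    (Or.inl (by omega)) (by
      intro T _ hT S
      rw [card_univ, Fintype.card_fin] at hT
      by_cases hS : S.card = T.card
      · rw [spoly_eval (K := K)]
        obtain ⟨R', hR', he⟩ := h T S hS (by omega)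
        exact hv _ _ _ (spoly_homog T S) hR' he
      · by_contra hne
        exact hS (sc_prod_card _ _ _ _ hne).2)
  rw [card_univ, Fintype.card_fin, Nat.sub_add_cancel (by omega)] at h1
  have h3 : rk K (Set.range ζ) ≤ rk K (ent (fun i j : Fin n => ζ (i, j)) univ univ) := by
    refine rk_subset (ent_finite _ _ _) ?_
    rintro _ ⟨⟨i, j⟩, rfl⟩
    exact mem_ent (mem_univ i) (mem_univ j)
  omega

/-- A subset of a finite set contains as many algebraically independent elements as the
transcendence degree of the subalgebra says. -/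
theorem exists_indep {R A : Type u} [CommRing R] [IsDomain R] [CommRing A] [IsDomain A]
    [Algebra R A] [FaithfulSMul R A] {S : Set A} (hS : S.Finite) :
    ∃ t : Finset A, (t : Set A) ⊆ S ∧
      Algebra.trdeg R (Algebra.adjoin R S) = t.card ∧
      AlgebraicIndependent R (fun z : (↑t : Set A) => (z : A)) := by
  classical
  set B := Algebra.adjoin R S with hB
  have htop : Algebra.adjoin R ((↑) ⁻¹' S : Set B) = ⊤ := Algebra.adjoin_adjoin_coe_preimage
  have hfs : FaithfulSMul R B := (faithfulSMul_iff_algebraMap_injective R B).2 fun a b hab =>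
    FaithfulSMul.algebraMap_injective R A (congrArg (fun z : B => (z : A)) hab)
  have halg : Algebra.IsAlgebraic (Algebra.adjoin R ((↑) ⁻¹' S : Set B)) B := ⟨fun x => by
    have hx : x ∈ Algebra.adjoin R ((↑) ⁻¹' S : Set B) := by rw [htop]; trivial
    exact isAlgebraic_algebraMap
      (⟨x, hx⟩ : Algebra.adjoin R ((↑) ⁻¹' S : Set B))⟩
  obtain ⟨t, htS, htb⟩ := exists_isTranscendenceBasis_subset (R := R) (A := B)
    ((↑) ⁻¹' S : Set B)
  have hfin : t.Finite := (hS.preimage Subtype.val_injective.injOn).subset htS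
  refine ⟨hfin.toFinset.image (fun z : B => (z : A)), ?_, ?_, ?_⟩
  · intro z hz
    rw [coe_image, Set.Finite.coe_toFinset] at hz
    obtain ⟨y, hy, rfl⟩ := hz
    exact htS hy
  · rw [card_image_of_injective _ Subtype.val_injective, ← htb.cardinalMk_eq_trdeg]
    rw [← Set.ncard_eq_toFinset_card t hfin, Set.cast_ncard hfin]
  · have h1 : AlgebraicIndependent R fun z : t => ((z : B) : A) :=
      htb.1.map' (f := B.val) Subtype.val_injective
    have h2 := h1.coe_range
    refine AlgebraicIndependent.mono ?_ h2
    intro z hz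
    rw [coe_image, Set.Finite.coe_toFinset] at hz
    obtain ⟨y, hy, rfl⟩ := hz
    exact ⟨⟨y, hy⟩, rfl⟩

/-- The permanent in a power of an ideal: approximate version. -/
theorem power_fin (h2 : (2 : K) ≠ 0) {j e : ℕ} (hj : 2 ≤ j)
    {R : MvPolynomial (Fin n × Fin n) K} (hR : Low n R)
    {Q : MvPolynomial (Fin n × Fin n) (Polynomial K)}
    {S : Set (MvPolynomial (Fin n × Fin n) (Polynomial K))} (hS : S.Finite)
    (h0 : ∀ f ∈ S, constantCoeff f = 0)
    (h : C (Polynomial.X ^ e) * (map Polynomial.C (per K n + R) + C Polynomial.X * Q) ∈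
      Ideal.span S ^ j) :
    ∃ s : Finset (MvPolynomial (Fin n × Fin n) (Polynomial K)), (s : Set _) ⊆ S ∧
      s.card = j * n ∧
      AlgebraicIndependent (Polynomial K) (fun f : (↑s : Set (MvPolynomial (Fin n × Fin n)
        (Polynomial K))) => (f : MvPolynomial (Fin n × Fin n) (Polynomial K))) := by
  classical
  let A : Type u := MvPolynomial (Fin n × Fin n) (Polynomial K)
  have hAft : Algebra.FiniteType K A := Algebra.FiniteType.trans (S := Polynomial K)
    inferInstance inferInstance
  have hfs : FaithfulSMul (Polynomial K) A :=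
    (faithfulSMul_iff_algebraMap_injective _ _).2 (C_injective _ _)
  obtain ⟨t, htS, htr, hti⟩ := exists_indep (R := Polynomial K) hS
  suffices hle : j * n ≤ t.card by
    obtain ⟨s, hst, hsc⟩ := exists_subset_card_eq hle
    exact ⟨s, (coe_subset.2 hst).trans htS, hsc, AlgebraicIndependent.mono (coe_subset.2 hst) hti⟩
  set ρ := t.card with hρ
  -- the subalgebra generated by `S` and the parameter
  let B0 := Algebra.adjoin (Polynomial K) S
  have hfs0 : FaithfulSMul (Polynomial K) B0 :=
    (faithfulSMul_iff_algebraMap_injective _ _).2 fun a b hab =>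
      C_injective _ _ (congrArg (fun z : B0 => (z : A)) hab)
  have hB0 : Algebra.FiniteType (Polynomial K) B0 :=
    (Subalgebra.fg_iff_finiteType _).1 (Subalgebra.fg_def.2 ⟨S, hS, rfl⟩)
  have hB0K : Algebra.FiniteType K B0 := Algebra.FiniteType.trans (S := Polynomial K)
    inferInstance inferInstance
  let B : Subalgebra K A := B0.restrictScalars K
  have hBFG : B.FG := (Subalgebra.fg_iff_finiteType _).2 hB0K
  have hBtr : Algebra.trdeg K B ≤ (ρ + 1 : ℕ) := by
    have h3 : Algebra.trdeg K B0 = 1 + ρ := by
      rw [← _root_.trdeg_add_eq K (Polynomial K) (A := B0), Polynomial.trdeg_of_isDomain, htr]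
    have h4 : Algebra.trdeg K B = Algebra.trdeg K B0 := rfl
    rw [h4, h3]
    push_cast
    rw [add_comm]
  -- the prime ideals
  let π : A →+* Polynomial K := constantCoeff
  let π0 : A →+* K := (Polynomial.evalRingHom 0).comp π
  have hP : (RingHom.ker π).IsPrime := RingHom.ker_isPrime π
  have hP0 : (RingHom.ker π0).IsPrime := RingHom.ker_isPrime π0
  have hPP0 : RingHom.ker π ≤ RingHom.ker π0 := fun z hz => by
    rw [RingHom.mem_ker] at hz ⊢
    show Polynomial.evalRingHom 0 (π z) = 0
    rw [hz, map_zero]
  let tt : A := C Polynomial.X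
  have htB : tt ∈ B := B0.algebraMap_mem Polynomial.X
  have htP : tt ∉ RingHom.ker π := fun hz => by
    rw [RingHom.mem_ker] at hz
    have : π tt = Polynomial.X := constantCoeff_C _ _
    rw [this] at hz
    exact Polynomial.X_ne_zero hz
  have htP0 : tt ∈ RingHom.ker π0 := by
    rw [RingHom.mem_ker]
    show Polynomial.evalRingHom 0 (constantCoeff (C Polynomial.X)) = 0
    rw [constantCoeff_C]
    simp
  obtain ⟨p, hp, hpP, hBp, htrp⟩ := fibre B hBFG (RingHom.ker π) (RingHom.ker π0) hPP0 htB htP
    htP0 hBtr
  have hSp : Ideal.span S ≤ p := Ideal.span_le.2 fun y hy =>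
    hBp y (Algebra.subset_adjoin hy) (h0 y hy)
  obtain ⟨q, hq, hpq, -, htq, htrq⟩ := cut (K := K) p {tt} (RingHom.ker π0) (hpP.trans hPP0)
    (by intro y hy; rw [mem_singleton] at hy; rw [hy]; exact htP0)
  have htq' : tt ∈ q := htq tt (mem_singleton_self _)
  -- the point
  let A1 : Type u := A ⧸ q
  have hA1 : IsDomain A1 := Ideal.Quotient.isDomain q
  let F := FractionRing A1
  let ι1 : A1 →ₐ[K] F := IsScalarTower.toAlgHom K A1 F
  have hι1 : Function.Injective ι1 := IsFractionRing.injective A1 F
  let Φ : A →ₐ[K] F := ι1.comp (Ideal.Quotient.mkₐ K q)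
  have hΦ : ∀ z ∈ q, Φ z = 0 := fun z hz => by
    have h5 : (Ideal.Quotient.mkₐ K q) z = 0 := Ideal.Quotient.eq_zero_iff_mem.2 hz
    show ι1 ((Ideal.Quotient.mkₐ K q) z) = 0
    rw [h5, map_zero]
  have hΦt : Φ tt = 0 := hΦ tt htq'
  let ξ : Fin n × Fin n → F := fun i => Φ (X i)
  have hξ : ∀ r : MvPolynomial (Fin n × Fin n) K, Φ (map Polynomial.C r) = aeval ξ r := by
    intro r
    induction r using MvPolynomial.induction_on with
    | C a =>
      rw [map_C, algHom_C]
      exact Φ.commutes a
    | add r s hr hs => rw [map_add, map_add, map_add, hr, hs]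
    | mul_X r i hr => rw [map_mul, map_mul, map_mul, hr, map_X, aeval_X]
  have hmem : ∀ z, Φ z ∈ IntermediateField.adjoin K (Set.range ξ) := by
    intro z
    induction z using MvPolynomial.induction_on with
    | C f =>
      induction f using Polynomial.induction_on with
      | C a =>
        have h5 : Φ (C (Polynomial.C a)) = algebraMap K F a := Φ.commutes a
        rw [h5]
        exact IntermediateField.algebraMap_mem _ a
      | add f g hf hg => rw [map_add, map_add]; exact add_mem hf hg
      | monomial m a _ =>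
        have h5 : Φ (C (Polynomial.C a * Polynomial.X ^ (m + 1))) = 0 := by
          rw [map_mul, map_mul, map_pow, map_pow]
          have h6 : Φ (C Polynomial.X) = 0 := hΦt
          rw [h6, zero_pow (Nat.succ_ne_zero m), mul_zero]
        rw [h5]
        exact zero_mem _
    | add r s hr hs => rw [map_add]; exact add_mem hr hs
    | mul_X r i hr =>
      rw [map_mul]
      exact mul_mem hr (IntermediateField.subset_adjoin K _ ⟨i, rfl⟩)
  have hrk : n * n ≤ rk K (Set.range ξ) + ρ := by
    have h5 : Algebra.trdeg K A1 ≤ Algebra.trdeg K (IntermediateField.adjoin K (Set.range ξ)) := by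
      let j1 : A1 →ₐ[K] IntermediateField.adjoin K (Set.range ξ) :=
        ι1.codRestrict (IntermediateField.adjoin K (Set.range ξ)).toSubalgebra (by
          intro z
          obtain ⟨a, rfl⟩ := Ideal.Quotient.mk_surjective z
          exact hmem a)
      have hj1 : Function.Injective j1 := (AlgHom.injective_codRestrict _ _ _).2 hι1
      exact _root_.trdeg_le_of_injective j1 hj1
    have h6 : Algebra.trdeg K A = 1 + (n * n : ℕ) := by
      rw [← _root_.trdeg_add_eq K (Polynomial K) (A := A), Polynomial.trdeg_of_isDomain,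
        MvPolynomial.trdeg_of_isDomain]
      simp
    rw [← rk_cast (Set.finite_range ξ)] at h5
    have h7 : ((1 + n * n : ℕ) : Cardinal.{u}) ≤ ((rk K (Set.range ξ) + 1 + ρ : ℕ) :
        Cardinal.{u}) := by
      calc ((1 + n * n : ℕ) : Cardinal.{u}) = Algebra.trdeg K A := by rw [h6]; push_cast; rfl
        _ ≤ Algebra.trdeg K (A ⧸ p) + ρ := htrp
        _ ≤ (Algebra.trdeg K A1 + 1) + ρ := by
          gcongr
          simpa using htrq
        _ ≤ _ := by push_cast; gcongr
    have h8 : 1 + n * n ≤ rk K (Set.range ξ) + 1 + ρ := by exact_mod_cast h7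
    omega
  have hfin := final_step h2 ξ hj (by
    intro T S' hS' hT
    have hTn : T.card ≤ n := by
      have := card_le_univ T
      rwa [Fintype.card_fin] at this
    obtain ⟨R', Q', hR', hm⟩ := pow_der hR h (n - T.card) (by omega) T S' (by omega) hS'
    refine ⟨R', hR', ?_⟩
    have h5 : C (Polynomial.X ^ e) *
        (map Polynomial.C (spoly K T S' + R') + C Polynomial.X * Q') ∈ p :=
      hSp (Ideal.pow_le_self (by omega) hm)
    have h6 : (C (Polynomial.X ^ e) : A) ∉ p := fun hc => htP (hpP (by
      rw [map_pow] at hc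
      exact hp.mem_of_pow_mem _ hc))
    have h7 := hpq ((hp.mem_or_mem h5).resolve_left h6)
    have h8 := hΦ _ h7
    rw [map_add, map_mul] at h8
    have h9 : Φ (C Polynomial.X) = 0 := hΦt
    rw [h9, zero_mul, add_zero, hξ] at h8
    exact h8)
  omega

end Pool.Agent.V7H84.Perm
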