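import Mathlib

/-!
# Rank functions: the transcendence degree of a finitely generated subfield
-/

set_option autoImplicit false

universe u

namespace Pool.Agent.V7H84.Perm

open IntermediateField Cardinal

variable (K : Type u) [Field K] {F : Type u} [Field F] [Algebra K F]

/-- The transcendence degree over `K` of the field generated by `X`, as a natural number. -/
noncomputable def rk (X : Set F) : ℕ := Cardinal.toNat (Algebra.trdeg K (adjoin K X))

variable {K}

open scoped IntermediateField.algebraAdjoinAdjoin in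
theorem trdeg_adjoin_eq (X : Set F) :
    Algebra.trdeg K (adjoin K X) = Algebra.trdeg K (Algebra.adjoin K X) := by
  have h := trdeg_add_eq K (Algebra.adjoin K X) (A := adjoin K X)
  rw [← h, trdeg_eq_zero (R := Algebra.adjoin K X) (A := adjoin K X), add_zero]

theorem trdeg_adjoin_le (X : Set F) : Algebra.trdeg K (adjoin K X) ≤ #X := by
  rw [trdeg_adjoin_eq, Algebra.adjoin_eq_range]
  have h := trdeg_le_of_surjective
    ((MvPolynomial.aeval (R := K) ((↑) : X → F)).rangeRestrict)
    (MvPolynomial.aeval (R := K) ((↑) : X → F)).rangeRestrict_surjective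
  rwa [MvPolynomial.trdeg_of_isDomain, lift_id] at h

theorem trdeg_adjoin_lt {X : Set F} (hX : X.Finite) :
    Algebra.trdeg K (adjoin K X) < ℵ₀ :=
  (trdeg_adjoin_le X).trans_lt (by
    have := hX.fintype
    exact Cardinal.mk_lt_aleph0)

theorem rk_cast {X : Set F} (hX : X.Finite) :
    ((rk K X : ℕ) : Cardinal.{u}) = Algebra.trdeg K (adjoin K X) :=
  Cardinal.cast_toNat_of_lt_aleph0 (trdeg_adjoin_lt hX)

theorem rk_mono {X Y : Set F} (hX : X.Finite) (h : ∀ y ∈ Y, y ∈ adjoin K X) :
    rk K Y ≤ rk K X := by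
  refine Cardinal.toNat_le_toNat ?_ (trdeg_adjoin_lt hX)
  have hle : adjoin K Y ≤ adjoin K X := adjoin_le_iff.2 h
  exact trdeg_le_of_injective (inclusion hle) (inclusion_injective hle)

theorem rk_subset {X Y : Set F} (hX : X.Finite) (h : Y ⊆ X) : rk K Y ≤ rk K X :=
  rk_mono hX fun _ hy => subset_adjoin K X (h hy)

theorem trdeg_union (X Y : Set F) :
    Algebra.trdeg K (adjoin K (X ∪ Y)) ≤ Algebra.trdeg K (adjoin K X) + #Y := by
  have h1 := trdeg_add_eq K (adjoin K X) (A := adjoin (adjoin K X) Y)
  have h2 : Algebra.trdeg K (adjoin (adjoin K X) Y) =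
      Algebra.trdeg K (adjoin K (X ∪ Y)) := by
    rw [← adjoin_adjoin_left]
    rfl
  rw [← h2, ← h1]
  gcongr
  exact trdeg_adjoin_le Y

theorem rk_union_le {X Y : Set F} (hX : X.Finite) (hY : Y.Finite) :
    rk K (X ∪ Y) ≤ rk K X + Y.ncard := by
  have h : ((rk K (X ∪ Y) : ℕ) : Cardinal.{u}) ≤ ((rk K X + Y.ncard : ℕ) : Cardinal.{u}) := by
    rw [rk_cast (hX.union hY), Nat.cast_add, rk_cast hX, Set.cast_ncard hY]
    exact trdeg_union X Y
  exact_mod_cast h

/-- The main estimate: if everything in `Z` is in the field generated by `X` and the `f i`,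
`i ∈ t`, then the rank of `Z` is at most that of `X` plus the number of elements of `t`. -/
theorem rk_le_of {ι : Type*} {X Z : Set F} (hX : X.Finite) (f : ι → F) (t : Finset ι)
    (h : ∀ z ∈ Z, z ∈ adjoin K (X ∪ f '' (t : Set ι))) : rk K Z ≤ rk K X + t.card := by
  have hY : (f '' (t : Set ι)).Finite := t.finite_toSet.image f
  refine (rk_mono (hX.union hY) h).trans ((rk_union_le hX hY).trans ?_)
  gcongr
  exact (Set.ncard_image_le t.finite_toSet).trans_eq (Set.ncard_coe_finset t)

theorem rk_eq_zero {X : Set F} (h : ∀ x ∈ X, x = 0) : rk K X = 0 := by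
  have h1 : rk K X ≤ rk K (∅ : Set F) := rk_mono Set.finite_empty fun y hy => by
    rw [h y hy]; exact zero_mem _
  have h2 : rk K (∅ : Set F) ≤ 0 := by
    have := trdeg_adjoin_le (K := K) (∅ : Set F)
    rw [← rk_cast Set.finite_empty, Cardinal.mk_eq_zero] at this
    exact_mod_cast this
  omega

theorem rk_image {F' : Type u} [Field F'] [Algebra K F'] (φ : F →ₐ[K] F') (X : Set F) :
    rk K (φ '' X) = rk K X := by
  unfold rk
  congr 1
  rw [← adjoin_map]
  exact (AlgEquiv.trdeg_eq (equivMap (adjoin K X) φ)).symm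

end Pool.Agent.V7H84.Perm
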