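import Pool.Agent.V7H84.Perm.Krull
import Pool.Agent.V7H84.Perm.Der

/-!
# Higher partial derivatives of the permanent
-/

set_option autoImplicit false
set_option linter.unusedSectionVars false

universe u

namespace Pool.Agent.V7H84.Perm

open MvPolynomial Finset

variable {K : Type u} [Field K] {n : ℕ}

/-- The subpermanents as coefficients. -/
theorem permIdeal_eq (k : ℕ) : permIdeal K k n n =
    Ideal.span {x | ∃ T S : Finset (Fin n), T.card = k ∧ S.card = k ∧ x = spoly K T S} := by
  unfold permIdeal
  congr 1
  ext x
  constructor
  · rintro ⟨e, f, rfl⟩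
    refine ⟨univ.image e, univ.image f, ?_, ?_, ?_⟩
    · rw [card_image_of_injective _ e.injective, card_univ, Fintype.card_fin]
    · rw [card_image_of_injective _ f.injective, card_univ, Fintype.card_fin]
    · unfold spoly
      rw [prod_image fun a _ b _ hab => e.injective hab]
      exact (sc_prod_eq_permanent (fun i j : Fin n => (X (i, j) : MvPolynomial (Fin n × Fin n) K))
        e f f.injective univ fun _ => mem_univ _).symm
  · rintro ⟨T, S, hT, hS, rfl⟩
    refine ⟨T.orderEmbOfFin hT, S.orderEmbOfFin hS, ?_⟩
    rw [← sc_prod_eq_permanent (fun i j : Fin n => (X (i, j) : MvPolynomial (Fin n × Fin n) K))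
        (T.orderEmbOfFin hT) (S.orderEmbOfFin hS) (S.orderEmbOfFin hS).injective univ
        fun _ => mem_univ _]
    have h4 : univ.image (S.orderEmbOfFin hS) = S := by
      apply Finset.coe_injective
      rw [coe_image, coe_univ, Set.image_univ]
      exact range_orderEmbOfFin S hS
    have h5 : ∏ a, lin univ (fun j : Fin n =>
        (X (T.orderEmbOfFin hT a, j) : MvPolynomial (Fin n × Fin n) K)) =
        ∏ i ∈ T, lin univ (fun j : Fin n => X (i, j)) := by
      have h6 : T = univ.image (T.orderEmbOfFin hT) := by
        apply Finset.coe_injective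
        rw [coe_image, coe_univ, Set.image_univ]
        exact (range_orderEmbOfFin T hT).symm
      conv_rhs => rw [h6]
      rw [prod_image]
      intro a _ b _ hab
      exact (T.orderEmbOfFin hT).injective hab
    rw [h4, h5]
    rfl

theorem pderiv_spoly_col {T : Finset (Fin n)} (r : Fin n) {c : Fin n}
    {S : Finset (Fin n)} (hc : c ∉ S) : pderiv (r, c) (spoly K T S) = 0 := by
  induction T using Finset.induction_on generalizing S with
  | empty =>
    unfold spoly
    rw [prod_empty, sc_one]
    split_ifs <;> simp
  | insert i T hi ih =>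
    rw [spoly_insert hi, map_sum]
    refine sum_eq_zero fun j hj => ?_
    have hjc : j ≠ c := fun e => hc (e ▸ hj)
    rw [pderiv_mul, ih (fun h => hc (mem_of_mem_erase h)),
      pderiv_X_of_ne fun e => hjc (congrArg Prod.snd e)]
    ring

/-- The iterated partial derivatives of the permanent. -/
theorem iter_pderiv (l : List (Fin n × Fin n)) :
    l.foldr (fun p f => pderiv p f) (per K n) = 0 ∨
      ∃ T S : Finset (Fin n), T.card + l.length = n ∧ S.card + l.length = n ∧
        l.foldr (fun p f => pderiv p f) (per K n) = spoly K T S := by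
  induction l with
  | nil =>
    right
    exact ⟨univ, univ, by simp, by simp, per_eq⟩
  | cons p l ih =>
    obtain ⟨r, c⟩ := p
    rw [List.foldr_cons]
    rcases ih with ih | ⟨T, S, hT, hS, ih⟩
    · left; rw [ih, map_zero]
    · rw [ih]
      by_cases hr : r ∈ T
      · by_cases hc : c ∈ S
        · right
          refine ⟨T.erase r, S.erase c, ?_, ?_, ?_⟩
          · have := card_erase_add_one hr
            rw [List.length_cons]; omega
          · have := card_erase_add_one hc
            rw [List.length_cons]; omega
          · conv_lhs => rw [← insert_erase hr, ← insert_erase hc]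
            exact pderiv_spoly (notMem_erase _ _) (notMem_erase _ _)
        · left; exact pderiv_spoly_col r hc
      · left; exact pderiv_spoly_zero hr c S

theorem exists_iter_pderiv (k : ℕ) : ∀ T S : Finset (Fin n), T.card + k = n → S.card + k = n →
    ∃ l : List (Fin n × Fin n), l.length = k ∧
      l.foldr (fun p f => pderiv p f) (per K n) = spoly K T S := by
  induction k with
  | zero =>
    intro T S hT hS
    have hT' : T = univ := by
      rw [← card_eq_iff_eq_univ, Fintype.card_fin]; omega
    have hS' : S = univ := by
      rw [← card_eq_iff_eq_univ, Fintype.card_fin]; omega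
    exact ⟨[], rfl, by rw [hT', hS']; exact per_eq⟩
  | succ k ih =>
    intro T S hT hS
    obtain ⟨r, hr⟩ : ∃ r, r ∉ T := by
      by_contra hcon
      push Not at hcon
      have : T = univ := eq_univ_iff_forall.2 hcon
      rw [this, card_univ, Fintype.card_fin] at hT
      omega
    obtain ⟨c, hc⟩ : ∃ c, c ∉ S := by
      by_contra hcon
      push Not at hcon
      have : S = univ := eq_univ_iff_forall.2 hcon
      rw [this, card_univ, Fintype.card_fin] at hS
      omega
    obtain ⟨l, hl, h⟩ := ih (insert r T) (insert c S)
      (by rw [card_insert_of_notMem hr]; omega) (by rw [card_insert_of_notMem hc]; omega)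
    refine ⟨(r, c) :: l, by rw [List.length_cons, hl], ?_⟩
    rw [List.foldr_cons, h, pderiv_spoly hr hc]

/-- The ideal of the `k`-th partial derivatives of the permanent. -/
theorem span_iter_pderiv {k : ℕ} (hk : k ≤ n) :
    Ideal.span {x | ∃ l : List (Fin n × Fin n), l.length = k ∧
      x = l.foldr (fun p f => pderiv p f) (per K n)} = permIdeal K (n - k) n n := by
  rw [permIdeal_eq]
  apply le_antisymm
  · refine Ideal.span_le.2 ?_
    rintro _ ⟨l, hl, rfl⟩
    rcases iter_pderiv (K := K) l with h | ⟨T, S, hT, hS, h⟩
    · rw [h]; exact Ideal.zero_mem _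
    · exact Ideal.subset_span ⟨T, S, by omega, by omega, h⟩
  · refine Ideal.span_mono ?_
    rintro _ ⟨T, S, hT, hS, rfl⟩
    obtain ⟨l, hl, h⟩ := exists_iter_pderiv (K := K) k T S (by omega) (by omega)
    exact ⟨l, hl, h.symm⟩

/-- The Krull dimension of the ring defined by the `k`-th partial derivatives. -/
theorem ringKrullDim_iter_pderiv (h2 : (2 : K) ≠ 0) {k : ℕ} (hk : 1 ≤ k) (hkn : k < n) :
    ringKrullDim (MvPolynomial (Fin n × Fin n) K ⧸
      Ideal.span {x | ∃ l : List (Fin n × Fin n), l.length = k ∧
        x = l.foldr (fun p f => pderiv p f) (per K n)}) = ((n - k - 1) * n : ℕ) := by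
  rw [span_iter_pderiv hkn.le]
  exact ringKrullDim_permIdeal h2 (by omega) (Nat.sub_le _ _) le_rfl (by omega)

end Pool.Agent.V7H84.Perm
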