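import Mathlib

/-!
# Polynomials modulo the squares of the variables

`sc p S` is the coefficient of the squarefree monomial `∏ j ∈ S, X j` in `p`; `Jsq` is the ideal of all
polynomials without squarefree monomials, i.e. the ideal generated by the squares of the variables.
-/

set_option autoImplicit false
set_option linter.unusedSectionVars false

namespace Pool.Agent.V7H84.Perm

open MvPolynomial Finset

variable {σ : Type*} [DecidableEq σ] {R : Type*} [CommRing R]

/-- The exponent of the squarefree monomial of `S`. -/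
noncomputable def ind (S : Finset σ) : σ →₀ ℕ := Finsupp.indicator S fun _ _ => 1

omit [DecidableEq σ] in
theorem ind_apply [DecidableEq σ] (S : Finset σ) (j : σ) : ind S j = if j ∈ S then 1 else 0 := by
  unfold ind
  rw [Finsupp.indicator_apply]
  split_ifs <;> rfl

theorem support_ind (S : Finset σ) : (ind S).support = S := by
  ext j
  rw [Finsupp.mem_support_iff, ind_apply]
  split_ifs with h <;> simp [h]

theorem eq_ind {m : σ →₀ ℕ} {S : Finset σ} (h : m ≤ ind S) : m = ind m.support := by
  ext j
  rw [ind_apply]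
  have h1 := h j
  rw [ind_apply] at h1
  by_cases h2 : m j = 0
  · rw [if_neg (by simpa using h2), h2]
  · rw [if_pos (by simpa using h2)]
    split_ifs at h1 <;> omega

theorem ind_sub (S : Finset σ) (j : σ) : ind S - Finsupp.single j 1 = ind (S.erase j) := by
  ext l
  rw [Finsupp.tsub_apply, ind_apply, ind_apply, Finsupp.single_apply]
  by_cases h : j = l
  · subst h
    rw [if_pos rfl, if_neg (notMem_erase j S)]
    split_ifs <;> rfl
  · rw [if_neg h]
    have : (l ∈ S.erase j) ↔ l ∈ S := by
      rw [mem_erase]; exact ⟨fun h' => h'.2, fun h' => ⟨fun e => h e.symm, h'⟩⟩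
    simp [this]

/-- The coefficient of the squarefree monomial of `S`. -/
noncomputable def sc (p : MvPolynomial σ R) (S : Finset σ) : R := p.coeff (ind S)

theorem sc_add (p q : MvPolynomial σ R) (S : Finset σ) : sc (p + q) S = sc p S + sc q S :=
  coeff_add _ _ _

theorem sc_zero (S : Finset σ) : sc (0 : MvPolynomial σ R) S = 0 := coeff_zero _

theorem sc_neg (p : MvPolynomial σ R) (S : Finset σ) : sc (-p) S = - sc p S := by
  unfold sc; rw [coeff_neg]

theorem sc_sum {ι : Type*} (t : Finset ι) (f : ι → MvPolynomial σ R) (S : Finset σ) :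
    sc (∑ i ∈ t, f i) S = ∑ i ∈ t, sc (f i) S := coeff_sum _ _ _

theorem sc_C_mul (r : R) (p : MvPolynomial σ R) (S : Finset σ) : sc (C r * p) S = r * sc p S :=
  coeff_C_mul _ _ _

theorem sc_one (S : Finset σ) : sc (1 : MvPolynomial σ R) S = if S = ∅ then 1 else 0 := by
  unfold sc
  rw [coeff_one]
  congr 1
  rw [eq_iff_iff]
  constructor
  · intro h
    rw [← support_ind S, ← h]; simp
  · rintro rfl
    ext j; simp [ind_apply]

theorem sc_X_mul (j : σ) (p : MvPolynomial σ R) (S : Finset σ) :
    sc (X j * p) S = if j ∈ S then sc p (S.erase j) else 0 := by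
  unfold sc
  rw [coeff_X_mul', support_ind, ind_sub]

theorem sc_map {R' : Type*} [CommRing R'] (f : R →+* R') (p : MvPolynomial σ R) (S : Finset σ) :
    sc (map f p) S = f (sc p S) := coeff_map _ _ _

theorem sc_mul_aux (p q : MvPolynomial σ R) (S : Finset σ)
    (h : ∀ U V : Finset σ, U ⊆ S → V ⊆ S → (∀ c ∈ S, c ∈ U ∨ c ∈ V) → sc p U * sc q V = 0) :
    sc (p * q) S = 0 := by
  unfold sc
  rw [coeff_mul]
  refine Finset.sum_eq_zero fun x hx => ?_
  rw [HasAntidiagonal.mem_antidiagonal] at hx
  have h1 : x.1 ≤ ind S := by rw [← hx]; exact le_self_add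
  have h2 : x.2 ≤ ind S := by rw [← hx]; exact le_add_self
  have h3 := h x.1.support x.2.support ?_ ?_ ?_
  · unfold sc at h3
    rwa [← eq_ind h1, ← eq_ind h2] at h3
  · have := Finsupp.support_mono h1; rwa [support_ind] at this
  · have := Finsupp.support_mono h2; rwa [support_ind] at this
  · intro c hc
    have h4 : x.1 c + x.2 c = 1 := by
      rw [← Finsupp.add_apply, hx, ind_apply, if_pos hc]
    by_contra hcon
    push Not at hcon
    rw [Finsupp.notMem_support_iff, Finsupp.notMem_support_iff] at hcon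
    omega

variable (σ R) in
/-- The ideal of the polynomials without squarefree monomials. -/
noncomputable def Jsq : Ideal (MvPolynomial σ R) where
  carrier := {p | ∀ S, sc p S = 0}
  add_mem' {p q} hp hq S := by rw [sc_add, hp S, hq S, add_zero]
  zero_mem' S := sc_zero S
  smul_mem' a p hp S := by
    rw [smul_eq_mul]
    refine sc_mul_aux a p S fun U V _ _ _ => ?_
    rw [hp V, mul_zero]

theorem mem_Jsq {p : MvPolynomial σ R} : p ∈ Jsq σ R ↔ ∀ S, sc p S = 0 := Iff.rfl

theorem X_sq_mul_mem (c : σ) (p : MvPolynomial σ R) : X c ^ 2 * p ∈ Jsq σ R := by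
  intro S
  rw [pow_two, mul_assoc, sc_X_mul]
  split_ifs with h
  · rw [sc_X_mul, if_neg (notMem_erase c S)]
  · rfl

theorem one_notMem [Nontrivial R] : (1 : MvPolynomial σ R) ∉ Jsq σ R := fun h => by
  have := h ∅
  rw [sc_one, if_pos rfl] at this
  exact one_ne_zero this

theorem map_mem {R' : Type*} [CommRing R'] (f : R →+* R') {p : MvPolynomial σ R}
    (hp : p ∈ Jsq σ R) : map f p ∈ Jsq σ R' := fun S => by rw [sc_map, hp S, map_zero]

theorem mem_of_map {R' : Type*} [CommRing R'] (f : R →+* R') (hf : Function.Injective f)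
    {p : MvPolynomial σ R} (hp : map f p ∈ Jsq σ R') : p ∈ Jsq σ R := fun S => by
  have := hp S
  rw [sc_map] at this
  exact hf (by rw [this, map_zero])

theorem mem_of_C_mul [NoZeroDivisors R] {r : R} (hr : r ≠ 0) {p : MvPolynomial σ R}
    (hp : C r * p ∈ Jsq σ R) : p ∈ Jsq σ R := fun S => by
  have := hp S
  rw [sc_C_mul] at this
  exact (mul_eq_zero.1 this).resolve_left hr

/-- `p` is free of the variable `c`, as far as squarefree monomials are concerned. -/
def Fr (c : σ) (p : MvPolynomial σ R) : Prop := ∀ S, c ∈ S → sc p S = 0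

theorem Fr.add {c : σ} {p q : MvPolynomial σ R} (hp : Fr c p) (hq : Fr c q) : Fr c (p + q) :=
  fun S hS => by rw [sc_add, hp S hS, hq S hS, add_zero]

theorem Fr.mul {c : σ} {p q : MvPolynomial σ R} (hp : Fr c p) (hq : Fr c q) : Fr c (p * q) :=
  fun S hS => sc_mul_aux p q S fun U V _ _ h => by
    rcases h c hS with h | h
    · rw [hp U h, zero_mul]
    · rw [hq V h, mul_zero]

theorem Fr.C_mul {c : σ} {p : MvPolynomial σ R} (hp : Fr c p) (r : R) : Fr c (C r * p) :=
  fun S hS => by rw [sc_C_mul, hp S hS, mul_zero]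

theorem Fr.zero {c : σ} : Fr c (0 : MvPolynomial σ R) := fun S _ => sc_zero S

theorem Fr.one {c : σ} : Fr c (1 : MvPolynomial σ R) := fun S hS => by
  rw [sc_one, if_neg]
  rintro rfl
  exact absurd hS (notMem_empty c)

theorem Fr.sum {ι : Type*} {c : σ} (t : Finset ι) (f : ι → MvPolynomial σ R)
    (h : ∀ i ∈ t, Fr c (f i)) : Fr c (∑ i ∈ t, f i) := fun S hS => by
  rw [sc_sum]
  exact Finset.sum_eq_zero fun i hi => h i hi S hS

theorem Fr.prod {ι : Type*} {c : σ} (t : Finset ι) (f : ι → MvPolynomial σ R)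
    (h : ∀ i ∈ t, Fr c (f i)) : Fr c (∏ i ∈ t, f i) := by
  classical
  induction t using Finset.induction_on with
  | empty => rw [prod_empty]; exact Fr.one
  | insert a t ha ih =>
    rw [prod_insert ha]
    exact (h a (mem_insert_self a t)).mul (ih fun i hi => h i (mem_insert_of_mem hi))

/-- Splitting off a variable. -/
theorem split {c : σ} {p q : MvPolynomial σ R} (hp : Fr c p) (hq : Fr c q)
    (h : p + X c * q ∈ Jsq σ R) : p ∈ Jsq σ R ∧ q ∈ Jsq σ R := by
  have h1 : p ∈ Jsq σ R := fun S => by
    by_cases hS : c ∈ S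
    · exact hp S hS
    · have := h S
      rwa [sc_add, sc_X_mul, if_neg hS, add_zero] at this
  refine ⟨h1, fun S => ?_⟩
  by_cases hS : c ∈ S
  · exact hq S hS
  · have h2 : X c * q ∈ Jsq σ R := by
      have := (Jsq σ R).sub_mem h h1
      rwa [add_sub_cancel_left] at this
    have := h2 (insert c S)
    rwa [sc_X_mul, if_pos (mem_insert_self c S), erase_insert hS] at this

/-- The linear form with the coefficients `x j`, `j ∈ s`. -/
noncomputable def lin (s : Finset σ) (x : σ → R) : MvPolynomial σ R := ∑ j ∈ s, C (x j) * X j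

theorem sc_lin_mul (s : Finset σ) (x : σ → R) (p : MvPolynomial σ R) (S : Finset σ) :
    sc (lin s x * p) S = ∑ j ∈ s ∩ S, x j * sc p (S.erase j) := by
  unfold lin
  rw [sum_mul, sc_sum, ← sum_ite_mem]
  refine sum_congr rfl fun j _ => ?_
  rw [mul_assoc, sc_C_mul, sc_X_mul, mul_ite, mul_zero]

theorem Fr.lin {c : σ} {s : Finset σ} (hc : c ∉ s) (x : σ → R) : Fr c (lin s x) := by
  unfold Perm.lin
  refine Fr.sum _ _ fun j hj => Fr.C_mul (fun S hS => ?_) _
  have h1 : (X j : MvPolynomial σ R) = X j * 1 := (mul_one _).symm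
  rw [h1, sc_X_mul, sc_one]
  split_ifs with h2 h3
  · exfalso
    have : c ∈ S.erase j := mem_erase.2 ⟨fun e => hc (e ▸ hj), hS⟩
    rw [h3] at this
    exact absurd this (notMem_empty c)
  · rfl
  · rfl

theorem map_lin {R' : Type*} [CommRing R'] (f : R →+* R') (s : Finset σ) (x : σ → R) :
    map f (lin s x) = lin s fun j => f (x j) := by
  unfold lin
  rw [map_sum]
  refine sum_congr rfl fun j _ => ?_
  rw [map_mul, map_C, map_X]

/-- Only the variables of `S` matter for the coefficient at `S`. -/
theorem sc_lin_mul_inter (s : Finset σ) (x : σ → R) (p : MvPolynomial σ R) {S S' : Finset σ}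
    (hS : S ⊆ S') : sc (lin s x * p) S = sc (lin (s ∩ S') x * p) S := by
  rw [sc_lin_mul, sc_lin_mul, inter_assoc, inter_eq_right.2 hS]

theorem sc_lin_mul_inter2 (s : Finset σ) (x : σ → R) (p : MvPolynomial σ R) (S : Finset σ) :
    sc (lin s x * (lin s x * p)) S = sc (lin (s ∩ S) x * (lin (s ∩ S) x * p)) S := by
  rw [sc_lin_mul_inter s x _ (Finset.Subset.refl S), sc_lin_mul, sc_lin_mul]
  refine sum_congr rfl fun j _ => ?_
  rw [sc_lin_mul_inter s x p (erase_subset j S)]

theorem sc_prod_scale {ι : Type*} [DecidableEq ι] (s : Finset σ) (x : ι → σ → R) (w : σ → R)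
    (T : Finset ι) (S : Finset σ) :
    sc (∏ i ∈ T, lin s fun j => w j * x i j) S = (∏ j ∈ S, w j) * sc (∏ i ∈ T, lin s (x i)) S := by
  induction T using Finset.induction_on generalizing S with
  | empty =>
    rw [prod_empty, prod_empty, sc_one]
    split_ifs with h
    · rw [h]; simp
    · rw [mul_zero]
  | insert a T ha ih =>
    rw [prod_insert ha, prod_insert ha, sc_lin_mul, sc_lin_mul, mul_sum]
    refine sum_congr rfl fun j hj => ?_
    rw [ih, ← mul_prod_erase S w (mem_inter.1 hj).2]
    ring

theorem sc_prod_card {ι : Type*} [DecidableEq ι] (s : Finset σ) (x : ι → σ → R)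
    (T : Finset ι) (S : Finset σ) (h : sc (∏ i ∈ T, lin s (x i)) S ≠ 0) :
    S ⊆ s ∧ S.card = T.card := by
  induction T using Finset.induction_on generalizing S with
  | empty =>
    rw [prod_empty, sc_one] at h
    have : S = ∅ := by
      by_contra hS
      rw [if_neg hS] at h
      exact h rfl
    rw [this]; simp
  | insert a T ha ih =>
    rw [prod_insert ha, sc_lin_mul] at h
    obtain ⟨j, hj, hj2⟩ := exists_ne_zero_of_sum_ne_zero h
    obtain ⟨h1, h2⟩ := ih (S.erase j) (right_ne_zero_of_mul hj2)
    rw [mem_inter] at hj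
    constructor
    · intro l hl
      by_cases e : l = j
      · rw [e]; exact hj.1
      · exact h1 (mem_erase.2 ⟨e, hl⟩)
    · rw [card_insert_of_notMem ha, ← h2, card_erase_add_one hj.2]

end Pool.Agent.V7H84.Perm
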