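import Pool.Agent.V7H84.Perm.Sq

/-!
# Subpermanents as coefficients of products of linear forms
-/

set_option autoImplicit false
set_option linter.unusedSectionVars false

namespace Pool.Agent.V7H84.Perm

open MvPolynomial Finset

variable {σ : Type*} [DecidableEq σ] {R : Type*} [CommRing R] {α : Type*} [DecidableEq α]

theorem scX_one (g : α → σ) (T : Finset α) (hg : Set.InjOn g T) :
    sc (∏ a ∈ T, (X (g a) : MvPolynomial σ R)) (T.image g) = 1 := by
  induction T using Finset.induction_on with
  | empty => rw [prod_empty, image_empty, sc_one, if_pos rfl]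
  | insert a T ha ih =>
    have h1 : g a ∉ T.image g := by
      intro h
      obtain ⟨b, hb, hb2⟩ := mem_image.1 h
      have : b = a := hg (by simp [hb]) (by simp) hb2
      exact ha (this ▸ hb)
    rw [prod_insert ha, image_insert, sc_X_mul, if_pos (mem_insert_self _ _), erase_insert h1]
    exact ih (hg.mono (by simp))

theorem scX_ne (g : α → σ) (T : Finset α) (S : Finset σ)
    (h : sc (∏ a ∈ T, (X (g a) : MvPolynomial σ R)) S ≠ 0) :
    Set.InjOn g T ∧ T.image g = S := by
  induction T using Finset.induction_on generalizing S with
  | empty =>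
    rw [prod_empty, sc_one] at h
    have : S = ∅ := by
      by_contra hS
      rw [if_neg hS] at h
      exact h rfl
    rw [this]; simp
  | insert a T ha ih =>
    rw [prod_insert ha, sc_X_mul] at h
    have h1 : g a ∈ S := by
      by_contra hcon
      rw [if_neg hcon] at h
      exact h rfl
    rw [if_pos h1] at h
    obtain ⟨h2, h3⟩ := ih _ h
    have h4 : g a ∉ T.image g := by rw [h3]; exact notMem_erase _ _
    constructor
    · rw [coe_insert, Set.injOn_insert (by simpa using ha)]
      refine ⟨h2, ?_⟩
      simpa using h4
    · rw [image_insert, h3, insert_erase h1]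

/-- The coefficient at the columns `f` of the product of the rows `e` is the permanent of the
submatrix. -/
theorem sc_prod_eq_permanent [Fintype α] {ι : Type*} (M : ι → σ → R) (e : α → ι) (f : α → σ)
    (hf : Function.Injective f) (s : Finset σ) (hs : ∀ a, f a ∈ s) :
    sc (∏ a, lin s (M (e a))) (univ.image f) =
      Matrix.permanent (Matrix.of fun a b => M (e a) (f b)) := by
  have h1 : ∏ a, lin s (M (e a)) = ∑ g ∈ Fintype.piFinset fun _ : α => s,
      C (∏ a, M (e a) (g a)) * ∏ a, X (g a) := by
    unfold lin
    rw [prod_univ_sum]
    refine sum_congr rfl fun g _ => ?_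
    rw [prod_mul_distrib, map_prod]
  rw [h1, sc_sum]
  have h2 : (univ.image fun π : Equiv.Perm α => f ∘ π) ⊆ Fintype.piFinset fun _ : α => s := by
    intro g hg
    obtain ⟨π, -, rfl⟩ := mem_image.1 hg
    rw [Fintype.mem_piFinset]
    exact fun a => hs _
  rw [← sum_subset h2]
  · rw [sum_image]
    · rw [← Matrix.permanent_transpose, Matrix.permanent]
      refine sum_congr rfl fun π _ => ?_
      have h3 : (univ.image f) = univ.image (f ∘ π) := by
        ext z
        simp only [mem_image, mem_univ, true_and, Function.comp]
        constructor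
        · rintro ⟨a, rfl⟩
          exact ⟨π⁻¹ a, by simp⟩
        · rintro ⟨a, rfl⟩
          exact ⟨π a, rfl⟩
      rw [sc_C_mul, h3, scX_one _ _ ((hf.comp π.injective).injOn), mul_one]
      rfl
    · intro π _ π' _ h
      ext a
      exact hf (congrFun h a)
  · intro g _ hg
    rw [sc_C_mul]
    by_contra hne
    obtain ⟨h3, h4⟩ := scX_ne g univ _ (right_ne_zero_of_mul hne)
    apply hg
    have h5 : ∀ a, ∃ b, f b = g a := by
      intro a
      have : g a ∈ univ.image f := by rw [← h4]; exact mem_image_of_mem g (mem_univ a)
      simpa using this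
    choose π hπ using h5
    have h6 : Function.Injective π := by
      intro a b hab
      apply h3 (by simp) (by simp)
      rw [← hπ a, ← hπ b, hab]
    refine mem_image.2 ⟨Equiv.ofBijective π (Finite.injective_iff_bijective.1 h6), mem_univ _, ?_⟩
    funext a
    exact hπ a

/-- The permanent of a square matrix. -/
theorem permanent_eq_sc {n : ℕ} (M : Matrix (Fin n) (Fin n) R) :
    M.permanent = sc (∏ i, lin univ (M i)) univ := by
  have h := sc_prod_eq_permanent (R := R) (fun i j => M i j) (id : Fin n → Fin n)
    (id : Fin n → Fin n) Function.injective_id univ fun _ => mem_univ _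
  rw [image_id] at h
  exact h.symm

end Pool.Agent.V7H84.Perm
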